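import Pool.Agent.Work.MP_8c604c_gt.U.St
import Pool.Agent.Work.MP_8c604c_gt.P.Mod
import Pool.Agent.Work.MP_8c604c_gt.StokesA
import Pool.Agent.Work.MP_8c604c_gt.H.Defs
import Pool.Agent.Work.MP_8c604c_gt.ODE
import Pool.Agent.Work.MP_8c604c_gt.B.NegF
import Pool.Agent.Work.MP_8c604c_gt.Circle
import Pool.Agent.Work.MP_8c604c_gt.Idx
import Pool.Agent.Work.MP_8c604c_gt.RigC1
import Pool.Agent.Work.MP_8c604c_gt.G4
import Pool.Agent.Work.MP_8c604c_gt.NVol

-- merged part: Pool.Agent.Work.MP_8c604c_gt.U.Inst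
section
/-!
The complex numbers and the quaternions inside the octonions.
-/

set_option maxSynthPendingDepth 3

open scoped Quaternion

noncomputable section
namespace Pool.Agent.Work.MP_8c604c_gt.U

open OM.St

instance starModH : StarModule ℝ ℍ := ⟨fun c a => Quaternion.star_smul c a⟩

def ops (d : ℕ) : Ops O := ⟨InK d, omul, ostar, oone⟩

theorem oext {x y : O} (h1 : x.fst = y.fst) (h2 : x.snd = y.snd) : x = y :=
  (WithLp.ext_iff _).2 (Prod.ext h1 h2)

def eH : ℍ →L[ℝ] O :=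
  (WithLp.prodContinuousLinearEquiv 2 ℝ ℍ ℍ).symm.toContinuousLinearMap.comp (ContinuousLinearMap.inl ℝ ℍ ℍ)

def pH : O →L[ℝ] ℍ :=
  (ContinuousLinearMap.fst ℝ ℍ ℍ).comp (WithLp.prodContinuousLinearEquiv 2 ℝ ℍ ℍ).toContinuousLinearMap

def rH : ℍ →L[ℝ] ℝ := innerSL ℝ (1 : ℍ)

theorem eH_apply (a : ℍ) : eH a = WithLp.toLp 2 (a, 0) := rfl

theorem pH_apply (x : O) : pH x = x.fst := rfl

theorem rH_apply (a : ℍ) : rH a = a.re := by
  simp [rH, Quaternion.inner_def]

theorem embH : Emb (ops 4) eH pH rH where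
  pe _ := rfl
  ep x hx := oext rfl (hx.1 (by norm_num)).symm
  ink a := ⟨fun _ => rfl, fun h => absurd h (by norm_num)⟩
  mul a b := oext (by simp [ops, omul, eH_apply]) (by simp [ops, omul, eH_apply])
  st a := oext rfl (by simp [ops, ostar, eH_apply])
  one := rfl
  inn a b := by simp [eH_apply, rH_apply, Quaternion.inner_def]
  comm a b := by
    simp only [rH_apply, Quaternion.re_mul]
    ring
  rst a := by
    ext <;> simp [rH_apply]
    ring
  r1 := by simp [rH_apply]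

def cH : ℂ →L[ℝ] ℍ := Quaternion.ofComplex.toLinearMap.toContinuousLinearMap

def hC : ℍ →L[ℝ] ℂ :=
  LinearMap.toContinuousLinearMap
    { toFun := fun q => ⟨q.re, q.imI⟩
      map_add' := fun a b => Complex.ext (by simp) (by simp)
      map_smul' := fun c a => Complex.ext (by simp) (by simp) }

theorem cH_apply (a : ℂ) : cH a = ⟨a.re, a.im, 0, 0⟩ := rfl

theorem hC_apply (q : ℍ) : hC q = ⟨q.re, q.imI⟩ := rfl

theorem embC : Emb (ops 2) (eH.comp cH) (hC.comp pH) Complex.reCLM where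
  pe _ := rfl
  ep x hx := oext (Quaternion.ext _ _ rfl rfl (hx.2 (by norm_num)).1.symm (hx.2 (by norm_num)).2.symm)
    (hx.1 (by norm_num)).symm
  ink a := ⟨fun _ => rfl, fun _ => ⟨rfl, rfl⟩⟩
  mul a b := (embH.mul _ _).trans (congrArg eH (map_mul Quaternion.ofComplex a b).symm)
  st a := (embH.st _).trans (congrArg eH (by ext <;> simp [cH_apply]))
  one := rfl
  inn a b := (embH.inn _ _).trans (by simp [rH_apply, cH_apply])
  comm a b := by rw [mul_comm]
  rst a := by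
    refine Complex.ext ?_ ?_ <;> simp
    ring
  r1 := rfl

variable {n : ℕ}

theorem fsC (z u w : E n) : fs z u w = fsK Complex.reCLM z u w := by
  have h : ∀ a b : E n, inner ℂ a b = hh b a := fun a b => by
    simp [hh, PiLp.inner_apply]
  have h1 : ‖z‖ ^ 2 = (hh z z).re := by
    rw [← h, ← RCLike.re_to_complex, inner_self_eq_norm_sq]
  rw [fs, fsK, show ‖z‖ ^ 4 = (‖z‖ ^ 2) ^ 2 by ring, h1, h, h, h, ← star_hh u w, ← star_hh u z]
  simp

theorem fsH (z u w : H.E n) : H.fs z u w = fsK rH z u w := by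
  have h : ∀ a b : H.E n, inner ℝ a b = (hh a b).re := fun a b => by
    simp only [hh, PiLp.inner_apply, Quaternion.inner_def, ← rH_apply, map_sum]
  have h1 : ‖z‖ ^ 2 = (hh z z).re := by
    rw [← h, real_inner_self_eq_norm_sq]
  have h2 : ∀ (q : ℍ) (a : H.E n), (hh a (q • z)).re = (hh a z * star q).re := fun q a => by
    rw [← star_hh, hh_smul, star_mul, star_hh]
  rw [H.fs, fsK, show ‖z‖ ^ 4 = (‖z‖ ^ 2) ^ 2 by ring, h1]
  simp only [h, h2, rH_apply]
  simp [H.qi, H.qj, H.qk]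

end Pool.Agent.Work.MP_8c604c_gt.U
end
end

-- merged part: Pool.Agent.Work.MP_8c604c_gt.GeoExAux
section
/-!
The geodesic vector field upstairs: definition, smoothness, symmetries, conservation laws.
-/

set_option maxSynthPendingDepth 3

open Set Filter Topology MeasureTheory
open scoped ContDiff

noncomputable section
namespace Pool.Agent.Work.MP_8c604c_gt

variable {n : ℕ}

/-- The force term of the Euler-Lagrange equation. -/
def geFrc (g : Met n) (z h : E n) : E n →L[ℝ] ℝ :=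
  (1 / 2 : ℝ) • ((fderiv ℝ g z).flip h).flip h - fderiv ℝ g z h h

theorem geFrc_apply (g : Met n) (z h η : E n) :
    geFrc g z h η = 1 / 2 * fderiv ℝ g z η h h - fderiv ℝ g z h h η := rfl

/-- The acceleration of a horizontal geodesic. -/
def geAcc (g : Met n) (z h : E n) : E n :=
  (GG g z).inverse (geFrc g z h) - (‖h‖ ^ 2 / ‖z‖ ^ 2 : ℝ) • z

/-- The geodesic vector field. -/
def geX (g : Met n) (x : VV n) : VV n :=
  (hor x.1 x.2, geAcc g x.1 (hor x.1 x.2) + nu x.1 x.2 • hor x.1 x.2)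

theorem ge_inner {z : E n} (hz : z ≠ 0) (u : E n) :
    inner ℂ z u = ((‖z‖ ^ 2 : ℝ) : ℂ) * nu z u := by
  have h : ((‖z‖ ^ 2 : ℝ) : ℂ) ≠ 0 := Complex.ofReal_ne_zero.2 (pow_ne_zero 2 (norm_ne_zero_iff.2 hz))
  rw [nu_def, mul_div_cancel₀ _ h]

theorem ge_inner_self (z : E n) : inner ℂ z z = ((‖z‖ ^ 2 : ℝ) : ℂ) := by
  rw [inner_self_eq_norm_sq_to_K, Complex.ofReal_pow]
  rfl

theorem ge_inner_hor {z : E n} (hz : z ≠ 0) (u : E n) : inner ℂ z (hor z u) = 0 := by
  rw [ge_inner hz, nu_hor hz, mul_zero]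

theorem ge_nu_sub (z u w : E n) : nu z (u - w) = nu z u - nu z w := map_sub (nuL z) u w

theorem ge_split (z u : E n) : u = hor z u + nu z u • z := by rw [hor_def, sub_add_cancel]

theorem ge_hor_add {z : E n} (hz : z ≠ 0) (u : E n) (c : ℂ) : hor z (u + c • z) = hor z u := by
  rw [hor_def, hor_def, nu_add, nu_smul, nu_self hz, mul_one, add_smul]
  abel

theorem ge_isOpen : IsOpen {x : VV n | x.1 ≠ 0} := isOpen_ne_fun continuous_fst continuous_const

namespace IsMetric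
variable {g : Met n} (h : IsMetric g)
include h

theorem ge_inv {z : E n} (hz : z ≠ 0) : (GG g z).IsInvertible := by
  have h1 : Function.Injective (GG g z).toLinearMap := by
    refine (injective_iff_map_eq_zero _).2 fun u hu => by_contra fun h0 => ?_
    have h2 := h.GG_pos hz h0
    rw [show GG g z u = 0 from hu] at h2
    exact lt_irrefl _ h2
  have h2 : Module.finrank ℝ (E n) = Module.finrank ℝ (E n →L[ℝ] ℝ) :=
    Subspace.dual_finrank_eq.symm.trans LinearMap.toContinuousLinearMap.finrank_eq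
  exact ⟨ContinuousLinearEquiv.ofBijective (GG g z) (LinearMap.ker_eq_bot.2 h1)
    (LinearMap.range_eq_top.2
      ((LinearMap.injective_iff_surjective_of_finrank_eq_finrank h2).1 h1)), rfl⟩

theorem geFrc_vert {z : E n} (hz : z ≠ 0) (u : E n) (c : ℂ) : geFrc g z u (c • z) = 0 := by
  rw [geFrc_apply, h.fderiv_vert c hz, h.fderiv_vert_arg c hz, h.symm z (c • u) u hz]
  ring

theorem ge_nu_inv {z : E n} (hz : z ≠ 0) (u : E n) :
    nu z ((GG g z).inverse (geFrc g z u)) = 0 := by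
  have h1 := h.geFrc_vert hz u (nu z ((GG g z).inverse (geFrc g z u)))
  nth_rewrite 1 [← (h.ge_inv hz).self_apply_inverse (geFrc g z u)] at h1
  rw [GG_apply, h.vert' _ _ hz, nu_smul, nu_self hz, mul_one, zero_add, ← Complex.normSq_apply] at h1
  exact Complex.normSq_eq_zero.1 h1

theorem geAcc_nu {z : E n} (hz : z ≠ 0) (u : E n) :
    nu z (geAcc g z u) = -((‖u‖ ^ 2 / ‖z‖ ^ 2 : ℝ) : ℂ) := by
  rw [geAcc, ge_nu_sub, h.ge_nu_inv hz, ← Complex.coe_smul, nu_smul, nu_self hz, mul_one, zero_sub]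

theorem geAcc_g {z : E n} (hz : z ≠ 0) (u η : E n) : g z (geAcc g z u) η = geFrc g z u η := by
  conv_rhs => rw [← (h.ge_inv hz).self_apply_inverse (geFrc g z u)]
  rw [GG_apply, h.ge_nu_inv hz, geAcc, map_sub, sub_apply, ← Complex.coe_smul,
    h.vert _ _ _ hz]
  simp

theorem geAcc_uniq {z u a : E n} (hz : z ≠ 0) (h1 : ∀ η, g z a η = geFrc g z u η)
    (h2 : nu z a = -((‖u‖ ^ 2 / ‖z‖ ^ 2 : ℝ) : ℂ)) : a = geAcc g z u := by
  have h3 : hor z (a - geAcc g z u) = 0 := h.hor_eq_zero hz (by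
    rw [map_sub (g z), sub_apply, h1, h.geAcc_g hz, sub_self])
  rw [hor_of_nu (by rw [ge_nu_sub, h2, h.geAcc_nu hz, sub_self])] at h3
  exact sub_eq_zero.1 h3

theorem ge_hasDerivAt {z u w : ℝ → E n} {z' u' w' : E n} {t : ℝ} (h0 : z t ≠ 0)
    (hz : HasDerivAt z z' t) (hu : HasDerivAt u u' t) (hw : HasDerivAt w w' t) :
    HasDerivAt (fun s => g (z s) (u s) (w s))
      (fderiv ℝ g (z t) z' (u t) (w t) + g (z t) u' (w t) + g (z t) (u t) w') t := by
  have h1 : HasDerivAt (fun s => g (z s)) (fderiv ℝ g (z t) z') t :=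
    ((h.contDiffAt h0).differentiableAt (by simp)).hasFDerivAt.comp_hasDerivAt t hz
  exact (h1.clm_apply hu).clm_apply hw

theorem ge_fderiv_inv {c : ℂ} (hc : c ≠ 0) {z : E n} (hz : z ≠ 0) (η u w : E n) :
    fderiv ℝ g (c • z) (c • η) (c • u) (c • w) = fderiv ℝ g z η u w := by
  have h1 : HasDerivAt (fun t : ℝ => z + t • η) η 0 := by
    simpa using ((hasDerivAt_id (0 : ℝ)).smul_const η).const_add z
  have h0 : z + (0 : ℝ) • η = z := by simp
  have h2 := h.ge_hasDerivAt (by rwa [h0]) h1 (hasDerivAt_const 0 u) (hasDerivAt_const 0 w)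
  have h3 := h.ge_hasDerivAt (z := fun t : ℝ => c • (z + t • η))
    (by rw [h0]; exact smul_ne_zero hc hz) (h1.const_smul c) (hasDerivAt_const 0 (c • u))
    (hasDerivAt_const 0 (c • w))
  have h4 : ∀ᶠ t : ℝ in 𝓝 0, z + t • η ≠ 0 := h1.continuousAt.eventually_ne (by rwa [h0])
  have h5 := h2.unique (h3.congr_of_eventuallyEq (h4.mono fun t ht => (h.inv c _ u w hc ht).symm))
  simpa using h5.symm

theorem geAcc_smul {c : ℂ} (hc : c ≠ 0) {z : E n} (hz : z ≠ 0) (u : E n) :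
    geAcc g (c • z) (c • u) = c • geAcc g z u := by
  refine (h.geAcc_uniq (smul_ne_zero hc hz) (fun η => ?_) ?_).symm
  · rw [← smul_inv_smul₀ hc η, h.inv c _ _ _ hc hz, h.geAcc_g hz, geFrc_apply, geFrc_apply,
      h.ge_fderiv_inv hc hz, h.ge_fderiv_inv hc hz]
  · rw [nu_smul_smul hc, h.geAcc_nu hz, norm_smul, norm_smul, mul_pow, mul_pow,
      mul_div_mul_left _ _ (pow_ne_zero 2 (norm_ne_zero_iff.2 hc))]

theorem geAcc_scale (r : ℝ) {z : E n} (hz : z ≠ 0) (u : E n) :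
    geAcc g z (r • u) = (r * r) • geAcc g z u := by
  refine (h.geAcc_uniq hz (fun η => ?_) ?_).symm
  · simp only [map_smul, smul_apply, smul_eq_mul, h.geAcc_g hz, geFrc_apply]
    ring
  · rw [← Complex.coe_smul, nu_smul, h.geAcc_nu hz, norm_smul, mul_pow, Real.norm_eq_abs, sq_abs]
    push_cast
    ring

theorem geX_smul {c : ℂ} (hc : c ≠ 0) {x : VV n} (hx : x.1 ≠ 0) : geX g (c • x) = c • geX g x := by
  simp only [geX, Prod.smul_fst, Prod.smul_snd, Prod.smul_mk, hor_smul_left hc, hor_smul,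
    nu_smul_smul hc, h.geAcc_smul hc hx, smul_add, smul_comm c]

theorem geX_scale (r : ℝ) {x : VV n} (hx : x.1 ≠ 0) :
    geX g (x.1, r • x.2) = (r • (geX g x).1, r • r • (geX g x).2) := by
  have h1 : hor x.1 (r • x.2) = r • hor x.1 x.2 := map_smul (horL x.1) r x.2
  have h2 : nu x.1 (r • x.2) = r • nu x.1 x.2 := map_smul (nuL x.1) r x.2
  simp only [geX, h1, h2, h.geAcc_scale r hx, smul_add, mul_smul, smul_assoc, smul_comm r]

omit h in
theorem geX_shift (c : ℂ) {x : VV n} (hx : x.1 ≠ 0) :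
    geX g (x.1, x.2 + c • x.1) = ((geX g x).1, (geX g x).2 + c • (geX g x).1) := by
  simp only [geX, ge_hor_add hx, nu_add, nu_smul, nu_self hx, mul_one, add_smul, add_assoc]

theorem contDiffOn_geAcc :
    ContDiffOn ℝ ∞ (fun x : VV n => geAcc g x.1 x.2) {x : VV n | x.1 ≠ 0} := by
  have hm : MapsTo (Prod.fst : VV n → E n) {x : VV n | x.1 ≠ 0} {0}ᶜ := fun _ hx => hx
  have hD : ContDiffOn ℝ ∞ (fun x : VV n => fderiv ℝ g x.1) {x : VV n | x.1 ≠ 0} :=
    (h.smooth.fderiv_of_isOpen isOpen_compl_singleton (by simp)).comp contDiffOn_fst hm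
  have h1 : ContDiffOn ℝ ∞ (fun x : VV n => geFrc g x.1 x.2) {x : VV n | x.1 ≠ 0} := by
    refine contDiffOn_clm_apply.2 fun η => ?_
    simp only [geFrc_apply]
    exact (contDiffOn_const.mul (((hD.clm_apply contDiffOn_const).clm_apply
      contDiffOn_snd).clm_apply contDiffOn_snd)).sub
      (((hD.clm_apply contDiffOn_snd).clm_apply contDiffOn_snd).clm_apply contDiffOn_const)
  have h2 : ContDiffOn ℝ ∞ (fun x : VV n => (GG g x.1).inverse) {x : VV n | x.1 ≠ 0} :=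
    fun x hx => ContDiffAt.comp_contDiffWithinAt (f := fun x : VV n => GG g x.1) x
      (h.ge_inv hx).contDiffAt_map_inverse ((h.contDiffOn_GG.comp contDiffOn_fst hm) x hx)
  have h3 : ContDiff ℝ ∞ fun z : E n => ‖z‖ ^ 2 := contDiff_norm_sq ℂ
  exact (h2.clm_apply h1).sub (((h3.comp contDiff_snd).contDiffOn.div
    (h3.comp contDiff_fst).contDiffOn fun x hx => pow_ne_zero 2 (norm_ne_zero_iff.2 hx)).smul
    contDiffOn_fst)

theorem contDiffOn_geX : ContDiffOn ℝ ∞ (geX g) {x : VV n | x.1 ≠ 0} := by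
  have hm : MapsTo (Prod.fst : VV n → E n) {x : VV n | x.1 ≠ 0} {0}ᶜ := fun _ hx => hx
  have h1 : ContDiffOn ℝ ∞ (fun x : VV n => hor x.1 x.2) {x : VV n | x.1 ≠ 0} :=
    (contDiffOn_horL.comp contDiffOn_fst hm).clm_apply contDiffOn_snd
  have h2 : ContDiffOn ℝ ∞ (fun x : VV n => nu x.1 x.2) {x : VV n | x.1 ≠ 0} :=
    (contDiffOn_nuL.comp contDiffOn_fst hm).clm_apply contDiffOn_snd
  have h3 : ContDiffOn ℝ ∞ (fun x : VV n => geAcc g x.1 (hor x.1 x.2)) {x : VV n | x.1 ≠ 0} :=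
    h.contDiffOn_geAcc.comp (contDiffOn_fst.prodMk h1) fun _ hx => hx
  exact h1.prodMk (h3.add (h2.smul h1))

section Conservation
variable {c : ℝ → VV n} {t : ℝ} (h0 : (c t).1 ≠ 0) (hc : HasDerivAt c (geX g (c t)) t)
include h0 hc

omit h h0 in
theorem ge_fst : HasDerivAt (fun s => (c s).1) (hor (c t).1 (c t).2) t :=
  (ContinuousLinearMap.fst ℝ (E n) (E n)).hasFDerivAt.comp_hasDerivAt t hc

omit h h0 in
theorem ge_snd : HasDerivAt (fun s => (c s).2)
    (geAcc g (c t).1 (hor (c t).1 (c t).2) + nu (c t).1 (c t).2 • hor (c t).1 (c t).2) t :=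
  (ContinuousLinearMap.snd ℝ (E n) (E n)).hasFDerivAt.comp_hasDerivAt t hc

omit h in
theorem ge_normC : HasDerivAt (fun s => ((‖(c s).1‖ ^ 2 : ℝ) : ℂ)) 0 t := by
  have h1 := (ge_fst hc).inner ℂ (ge_fst hc)
  rw [← inner_conj_symm (hor _ _), ge_inner_hor h0, map_zero, add_zero] at h1
  simpa only [ge_inner_self] using h1

omit h in
theorem ge_norm : HasDerivAt (fun s => ‖(c s).1‖ ^ 2) 0 t :=
  Complex.reCLM.hasFDerivAt.comp_hasDerivAt t (ge_normC h0 hc)

theorem ge_nu : HasDerivAt (fun s => nu (c s).1 (c s).2) 0 t := by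
  have hn : ‖(c t).1‖ ^ 2 ≠ 0 := pow_ne_zero 2 (norm_ne_zero_iff.2 h0)
  have h1 := (ge_fst hc).inner ℂ (ge_snd hc)
  have h2 : inner ℂ (hor (c t).1 (c t).2) (c t).2 = ((‖hor (c t).1 (c t).2‖ ^ 2 : ℝ) : ℂ) := by
    nth_rewrite 2 [ge_split (c t).1 (c t).2]
    rw [inner_add_right, inner_smul_right, ← inner_conj_symm (hor _ _) (c t).1, ge_inner_hor h0,
      map_zero, mul_zero, add_zero, ge_inner_self]
  rw [h2, inner_add_right, inner_smul_right, ge_inner_hor h0, mul_zero, add_zero, ge_inner h0,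
    h.geAcc_nu h0, mul_neg, ← Complex.ofReal_mul, mul_div_cancel₀ _ hn, neg_add_cancel] at h1
  have h3 := h1.div (ge_normC h0 hc) (Complex.ofReal_ne_zero.2 hn)
  simp only [nu_def]
  exact h3.congr_deriv (by simp)

theorem ge_el (η : E n) : HasDerivAt (fun s => g (c s).1 (c s).2 η)
    (1 / 2 * fderiv ℝ g (c t).1 η (hor (c t).1 (c t).2) (hor (c t).1 (c t).2)) t := by
  refine (h.ge_hasDerivAt h0 (ge_fst hc) (ge_snd hc) (hasDerivAt_const t η)).congr_deriv ?_
  nth_rewrite 2 [ge_split (c t).1 (c t).2]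
  generalize hor (c t).1 (c t).2 = u
  simp only [map_add, add_apply, map_zero, h.geAcc_g h0, geFrc_apply]
  rw [h.fderiv_symm h0 u (_ • _), h.fderiv_vert_arg _ h0, h.symm _ η _ h0]
  ring

theorem ge_energy : HasDerivAt (fun s => g (c s).1 (c s).2 (c s).2) 0 t := by
  refine (h.ge_hasDerivAt h0 (ge_fst hc) (ge_snd hc) (ge_snd hc)).congr_deriv ?_
  rw [h.symm _ (c t).2 (_ + _) h0]
  have h1 := ge_split (c t).1 (c t).2
  generalize hor (c t).1 (c t).2 = u at *
  generalize nu (c t).1 (c t).2 = a at *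
  rw [h1]
  simp only [map_add, add_apply, h.geAcc_g h0, geFrc_apply,
    h.fderiv_vert _ h0, h.fderiv_vert_arg _ h0, h.vert _ _ _ h0, h.vert' _ _ h0,
    h.fderiv_symm h0 u (a • _) u, h.symm _ (a • u) u h0]
  ring

end Conservation

end IsMetric

end Pool.Agent.Work.MP_8c604c_gt
end
end

-- merged part: Pool.Agent.Work.MP_8c604c_gt.GeoEx
section
/-!
Existence of the geodesic flow.
Hints. With h = hor z w, nu = nu z w, let r(eta) = 1/2 Dg(z)(eta)(h,h) - Dg(z)(h)(h,eta) (kills vertical eta by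
fderiv_vert, fderiv_vert_arg), a = (GG g z)^(-1) r - (|h|^2/|z|^2) z (ContinuousLinearMap.inverse, contDiffAt_map_inverse),
X(z,w) = (h, a + nu h). First integral F = |z|^2 + |z|^(-2) + GG g z w w. Conservation of |z|, nu, g(w,w) by
differentiating along solutions. add, smul, shift, scale by ode_unique. uniq: put f(t) = exp(-int_{t0}^t nu(c)(c')),
d = f c is horizontal, satisfies the same Euler-Lagrange equation, so (d, d' + nu0 d) solves X.
-/

set_option maxSynthPendingDepth 3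

open Set Filter Topology MeasureTheory
open scoped ContDiff

noncomputable section
namespace Pool.Agent.Work.MP_8c604c_gt

variable {n : ℕ}

/-- The proper first integral. -/
def geF (g : Met n) (x : VV n) : ℝ := ‖x.1‖ ^ 2 + (‖x.1‖ ^ 2)⁻¹ + GG g x.1 x.2 x.2

namespace IsMetric
variable {g : Met n} (h : IsMetric g)
include h

theorem contDiffOn_geF : ContDiffOn ℝ ∞ (geF g) {x : VV n | x.1 ≠ 0} := by
  have h3 : ContDiff ℝ ∞ fun z : E n => ‖z‖ ^ 2 := contDiff_norm_sq ℂ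
  have h4 : ContDiffOn ℝ ∞ (fun x : VV n => ‖x.1‖ ^ 2) {x : VV n | x.1 ≠ 0} :=
    (h3.comp contDiff_fst).contDiffOn
  exact (h4.add (h4.inv fun x hx => pow_ne_zero 2 (norm_ne_zero_iff.2 hx))).add
    (((h.contDiffOn_GG.comp contDiffOn_fst fun _ hx => hx).clm_apply contDiffOn_snd).clm_apply
      contDiffOn_snd)

theorem geF_fderiv {x : VV n} (hx : x.1 ≠ 0) : fderiv ℝ (geF g) x (geX g x) = 0 := by
  have h0 : x + (0 : ℝ) • geX g x = x := by simp
  have h1 : HasDerivAt (fun t : ℝ => x + t • geX g x) (geX g (x + (0 : ℝ) • geX g x)) 0 := by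
    simpa using ((hasDerivAt_id (0 : ℝ)).smul_const (geX g x)).const_add x
  have hx' : (x + (0 : ℝ) • geX g x).1 ≠ 0 := by rwa [h0]
  have h2 := ((h.contDiffOn_geF.contDiffAt (ge_isOpen.mem_nhds hx')).differentiableAt
    (by simp)).hasFDerivAt.comp_hasDerivAt (0 : ℝ) h1
  have h3 := ge_norm hx' h1
  have h4 := h.ge_nu hx' h1
  have h5 := Complex.reCLM.hasFDerivAt.comp_hasDerivAt (0 : ℝ) h4
  have h6 := Complex.imCLM.hasFDerivAt.comp_hasDerivAt (0 : ℝ) h4
  have h7 := (h3.add (h3.inv (pow_ne_zero 2 (norm_ne_zero_iff.2 hx')))).add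
    (((h.ge_energy hx' h1).add (h5.mul h5)).add (h6.mul h6))
  have h8 := h2.unique (h7.congr_of_eventuallyEq (Eventually.of_forall fun t => by
    simp only [Function.comp_apply, geF, GG_apply]
    rfl))
  rw [h0] at h8
  rw [h8]
  simp

theorem geF_compact (R : ℝ) : IsCompact {x ∈ {x : VV n | x.1 ≠ 0} | geF g x ≤ R} := by
  obtain ⟨A, hA, hA'⟩ := h.exists_comp
  have key : ∀ x : VV n, x.1 ≠ 0 → geF g x ≤ R → ‖x.1‖ ^ 2 ≤ R ∧ (‖x.1‖ ^ 2)⁻¹ ≤ R ∧
      g x.1 x.2 x.2 ≤ R ∧ ‖nu x.1 x.2‖ ^ 2 ≤ R := fun x hx hR => by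
    have h1 := h.nonneg hx x.2
    have h2 : 0 ≤ ‖x.1‖ ^ 2 := sq_nonneg _
    have h3 := inv_nonneg.2 h2
    have h4 := Complex.normSq_nonneg (nu x.1 x.2)
    rw [geF, GG_apply, add_assoc (g _ _ _), ← Complex.normSq_apply] at hR
    rw [← Complex.normSq_eq_norm_sq]
    exact ⟨by linarith, by linarith, by linarith, by linarith⟩
  refine Metric.isCompact_of_isClosed_isBounded ?_ ?_
  · have hK : IsClosed {x : VV n | 1 ≤ R * ‖x.1‖ ^ 2} := isClosed_le continuous_const (by fun_prop)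
    have hs : {x : VV n | 1 ≤ R * ‖x.1‖ ^ 2} ⊆ {x : VV n | x.1 ≠ 0} := fun x hx h0 => by
      have h1 : 1 ≤ R * ‖x.1‖ ^ 2 := hx
      rw [h0] at h1
      norm_num at h1
    convert (h.contDiffOn_geF.continuousOn.mono hs).preimage_isClosed_of_isClosed hK
      (isClosed_Iic (a := R)) using 1
    ext x
    refine ⟨fun hx => ⟨?_, hx.2⟩, fun hx => ⟨hs hx.1, hx.2⟩⟩
    exact (inv_le_iff_one_le_mul₀ (pow_pos (norm_pos_iff.2 hx.1) 2)).1 (key x hx.1 hx.2).2.1
  · refine isBounded_iff_forall_norm_le.2 ⟨√R + (√(A * R * R) + √R * √R), fun x hx => ?_⟩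
    obtain ⟨h1, -, h3, h4⟩ := key x hx.1 hx.2
    have h5 := Real.le_sqrt_of_sq_le h1
    have h6 := Real.le_sqrt_of_sq_le h4
    have h7 : ‖hor x.1 x.2‖ ≤ √(A * R * R) := Real.le_sqrt_of_sq_le ((hA' _ _ hx.1).1.trans
      (mul_le_mul (mul_le_mul_of_nonneg_left h1 hA.le) h3 (h.nonneg hx.1 _)
        (mul_nonneg hA.le ((sq_nonneg _).trans h1))))
    refine norm_prod_le_iff.2 ⟨h5.trans (le_add_of_nonneg_right (by positivity)), ?_⟩
    rw [ge_split x.1 x.2]
    refine (norm_add_le _ _).trans (le_add_of_nonneg_of_le (by positivity) (add_le_add h7 ?_))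
    rw [norm_smul]
    exact mul_le_mul h6 h5 (norm_nonneg _) (by positivity)

theorem ge_unique {c c' : ℝ → VV n} (hc : ∀ t, (c t).1 ≠ 0 ∧ HasDerivAt c (geX g (c t)) t)
    (hc' : ∀ t, (c' t).1 ≠ 0 ∧ HasDerivAt c' (geX g (c' t)) t) (h0 : c 0 = c' 0) (t : ℝ) :
    c t = c' t :=
  ode_unique ge_isOpen (h.contDiffOn_geX.of_le (by simp)) (a := -(|t| + 1)) (b := |t| + 1)
    (abs_lt.1 (by rw [abs_zero]; positivity)) (fun s _ => hc s) (fun s _ => hc' s) h0 t
    (abs_lt.1 (lt_add_one _))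

/-- The horizontal part of the velocity of a solution of the Euler-Lagrange equation. -/
theorem ge_acc_of_el {c c' : ℝ → E n} {c'' : E n} {ν' : ℂ} {t : ℝ} (h0 : c t ≠ 0)
    (h1 : HasDerivAt c (c' t) t) (h2 : HasDerivAt c' c'' t)
    (hν : HasDerivAt (fun s => nu (c s) (c' s)) ν' t)
    (hel : ∀ η, HasDerivAt (fun s => g (c s) (c' s) η)
      (1 / 2 * fderiv ℝ g (c t) η (c' t) (c' t)) t) :
    HasDerivAt (fun s => hor (c s) (c' s))
      (geAcc g (c t) (hor (c t) (c' t)) + nu (c t) (c' t) • hor (c t) (c' t)) t := by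
  have hn : ‖c t‖ ^ 2 ≠ 0 := pow_ne_zero 2 (norm_ne_zero_iff.2 h0)
  have h3 : HasDerivAt (fun s => hor (c s) (c' s))
      (c'' - (nu (c t) (c' t) • c' t + ν' • c t)) t := by
    simp only [hor_def]
    exact h2.sub (hν.smul h1)
  have h4 := (h1.inner ℂ h3).unique ((hasDerivAt_const t (0 : ℂ)).congr_of_eventuallyEq
    ((h1.continuousAt.eventually_ne h0).mono fun s hs => ge_inner_hor hs _))
  have h5 := fun η => (h.ge_hasDerivAt h0 h1 h2 (hasDerivAt_const t η)).unique (hel η)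
  refine h3.congr_deriv (eq_add_of_sub_eq (h.geAcc_uniq h0 (fun η => ?_) ?_))
  · have h6 := h5 η
    have h7 := ge_split (c t) (c' t)
    generalize hor (c t) (c' t) = u at *
    generalize nu (c t) (c' t) = a at *
    rw [h7] at h6 ⊢
    simp only [map_add, map_sub, add_apply, sub_apply, map_zero, geFrc_apply, smul_add, smul_smul,
      h.fderiv_vert _ h0, h.fderiv_vert_arg _ h0, h.vert _ _ _ h0,
      h.fderiv_symm h0 _ (a • c t) u, h.fderiv_symm h0 u (a • c t) η, h.symm _ η (a • u) h0] at h6 ⊢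
    linarith
  · have h6 : inner ℂ (c' t) (hor (c t) (c' t)) = ((‖hor (c t) (c' t)‖ ^ 2 : ℝ) : ℂ) := by
      nth_rewrite 1 [ge_split (c t) (c' t)]
      rw [inner_add_left, inner_smul_left, ge_inner_hor h0, mul_zero, add_zero, ge_inner_self]
    rw [h6, ge_inner h0] at h4
    rw [ge_nu_sub, nu_smul, nu_hor h0, mul_zero, sub_zero, Complex.ofReal_div, ← neg_div,
      eq_div_iff (Complex.ofReal_ne_zero.2 hn)]
    linear_combination h4

/-- Gauge fixing of a solution of the Euler-Lagrange equation. -/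
theorem ge_gauge {c : ℝ → E n} {a b t₀ : ℝ} (ht₀ : t₀ ∈ Ioo a b) (hc : ContDiffOn ℝ ∞ c (Ioo a b))
    (h0 : ∀ t ∈ Ioo a b, c t ≠ 0)
    (hel : ∀ t ∈ Ioo a b, ∀ η, HasDerivAt (fun s => g (c s) (deriv c s) η)
      (1 / 2 * fderiv ℝ g (c t) η (deriv c t) (deriv c t)) t) :
    ∃ (f : ℝ → ℂ) (y : ℝ → VV n), (∀ t, f t ≠ 0) ∧ (∀ t, (y t).1 = f t • c t) ∧
      y t₀ = (c t₀, deriv c t₀) ∧ ∀ t ∈ Ioo a b, HasDerivAt y (geX g (y t)) t := by
  have hc' : ContDiffOn ℝ ∞ (deriv c) (Ioo a b) := hc.deriv_of_isOpen isOpen_Ioo (by simp)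
  have hν : ContDiffOn ℝ ∞ (fun s => nu (c s) (deriv c s)) (Ioo a b) :=
    (contDiffOn_nuL.comp hc h0).clm_apply hc'
  refine ⟨fun t => Complex.exp (-∫ s in t₀..t, nu (c s) (deriv c s)),
    fun t => Complex.exp (-∫ s in t₀..t, nu (c s) (deriv c s)) •
      (c t, hor (c t) (deriv c t) + nu (c t₀) (deriv c t₀) • c t),
    fun _ => Complex.exp_ne_zero _, fun _ => rfl, ?_, fun t ht => ?_⟩
  · simp only [intervalIntegral.integral_same, neg_zero, Complex.exp_zero, one_smul, ← ge_split]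
  · have hI := isOpen_Ioo.mem_nhds ht
    have h1 := ((hc.contDiffAt hI).differentiableAt (by simp)).hasDerivAt
    have h2 := h.ge_acc_of_el (h0 t ht) h1
      ((hc'.contDiffAt hI).differentiableAt (by simp)).hasDerivAt
      ((hν.contDiffAt hI).differentiableAt (by simp)).hasDerivAt (hel t ht)
    have h3 := (intervalIntegral.integral_hasDerivAt_right
      ((hν.continuousOn.mono (ordConnected_Ioo.uIcc_subset ht₀ ht)).intervalIntegrable)
      (hν.continuousOn.stronglyMeasurableAtFilter isOpen_Ioo t ht)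
      (hν.continuousOn.continuousAt hI)).neg.cexp
    refine (h3.smul (h1.prodMk (h2.add (h1.const_smul (nu (c t₀) (deriv c t₀)))))).congr_deriv ?_
    beta_reduce
    rw [h.geX_smul (Complex.exp_ne_zero _) (h0 t ht), mul_smul, ← smul_add]
    congr 1
    simp only [geX, ge_hor_add (h0 t ht), nu_add, nu_smul, nu_self (h0 t ht), nu_hor (h0 t ht),
      hor_of_nu (nu_hor (h0 t ht) _), mul_one, zero_add, Prod.smul_mk, Prod.mk_add_mk,
      Pi.add_apply, Pi.smul_apply]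
    have h7 := ge_split (c t) (deriv c t)
    generalize hor (c t) (deriv c t) = u at *
    generalize nu (c t) (deriv c t) = a at *
    rw [h7]
    congr 1 <;> module

end IsMetric

theorem IsMetric.exists_geo {g : Met n} (h : IsMetric g) : Nonempty (Geo g) := by
  obtain ⟨φ, hs, h0, hm, hd⟩ := exists_flow ge_isOpen h.contDiffOn_geX h.contDiffOn_geF
    (fun x hx => h.geF_fderiv hx) h.geF_compact
  have hφ : ∀ x : VV n, x.1 ≠ 0 → ∀ t, (φ t x).1 ≠ 0 ∧
      HasDerivAt (fun s => φ s x) (geX g (φ t x)) t := fun x hx t => ⟨hm t x hx, hd t x hx⟩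
  refine ⟨⟨φ, hs, h0, fun s t x hx => ?_, fun t x hx => ?_, fun t x hx => ?_, fun t x hx => ?_,
    fun t x hx => IsMetric.ge_fst (hd t x hx),
    fun t x η hx => h.ge_el (c := fun s => φ s x) (hm t x hx) (hd t x hx) η,
    fun c t x hc hx => ?_, fun c t x hx => ?_, fun r t x hx => ?_,
    fun c a b t₀ ht₀ hc hc0 hel t ht => ?_⟩⟩
  · exact h.ge_unique (c := fun s => φ (s + t) x)
      (fun s => ⟨hm _ x hx, (hd (s + t) x hx).comp_add_const s t⟩) (hφ _ (hm t x hx))
      (by rw [zero_add, h0 _ (hm t x hx)]) s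
  · have h2 := fun s => IsMetric.ge_norm (c := fun s => φ s x) (hm s x hx) (hd s x hx)
    have h1 := is_const_of_deriv_eq_zero (fun s => (h2 s).differentiableAt)
      (fun s => (h2 s).deriv) t 0
    rwa [h0 x hx, sq_eq_sq₀ (norm_nonneg _) (norm_nonneg _)] at h1
  · have h2 := fun s => h.ge_nu (c := fun s => φ s x) (hm s x hx) (hd s x hx)
    have h1 := is_const_of_deriv_eq_zero (fun s => (h2 s).differentiableAt)
      (fun s => (h2 s).deriv) t 0
    rwa [h0 x hx] at h1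
  · have h2 := fun s => h.ge_energy (c := fun s => φ s x) (hm s x hx) (hd s x hx)
    have h1 := is_const_of_deriv_eq_zero (fun s => (h2 s).differentiableAt)
      (fun s => (h2 s).deriv) t 0
    rwa [h0 x hx] at h1
  · have hx' : (c • x).1 ≠ 0 := smul_ne_zero hc hx
    refine h.ge_unique (hφ _ hx') (c' := fun s => c • φ s x)
      (fun s => ⟨smul_ne_zero hc (hm s x hx), ?_⟩) (by rw [h0 _ hx', h0 _ hx]) t
    rw [h.geX_smul hc (hm s x hx)]
    exact (hd s x hx).const_smul c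
  · refine h.ge_unique (hφ (x.1, x.2 + c • x.1) hx)
      (c' := fun s => ((φ s x).1, (φ s x).2 + c • (φ s x).1)) (fun s => ⟨hm s x hx, ?_⟩)
      (by rw [h0 (x.1, x.2 + c • x.1) hx, h0 _ hx]) t
    rw [IsMetric.geX_shift c (hm s x hx)]
    exact (IsMetric.ge_fst (hd s x hx)).prodMk
      ((IsMetric.ge_snd (hd s x hx)).add ((IsMetric.ge_fst (hd s x hx)).const_smul c))
  · refine h.ge_unique (hφ (x.1, r • x.2) hx)
      (c' := fun s => ((φ (r * s) x).1, r • (φ (r * s) x).2)) (fun s => ⟨hm _ x hx, ?_⟩)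
      (by rw [h0 (x.1, r • x.2) hx, mul_zero, h0 _ hx]) t
    rw [h.geX_scale r (hm _ x hx)]
    have h1 : HasDerivAt (fun s => r * s) r s := by simpa using (hasDerivAt_id s).const_mul r
    exact ((IsMetric.ge_fst (hd (r * s) x hx)).scomp s h1).prodMk
      (((IsMetric.ge_snd (hd (r * s) x hx)).scomp s h1).const_smul r)
  · obtain ⟨f, y, hf, hy, hy0, hy'⟩ := h.ge_gauge ht₀ hc hc0 hel
    have hx : (c t₀, deriv c t₀).1 ≠ 0 := hc0 t₀ ht₀
    have h1 := ode_unique ge_isOpen (h.contDiffOn_geX.of_le (by simp)) ht₀ (c := y)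
      (c' := fun s => φ (s - t₀) (c t₀, deriv c t₀))
      (fun s hs => ⟨by
        change (y s).1 ≠ 0
        rw [hy]
        exact smul_ne_zero (hf s) (hc0 s hs), hy' s hs⟩)
      (fun s _ => ⟨hm _ _ hx, (hd (s - t₀) _ hx).comp_sub_const s t₀⟩)
      (by rw [hy0, sub_self, h0 _ hx]) t ht
    exact ⟨(f t)⁻¹, inv_ne_zero (hf t), by rw [← h1, hy, inv_smul_smul₀ (hf t)]⟩

end Pool.Agent.Work.MP_8c604c_gt
end
end

-- merged part: Pool.Agent.Work.MP_8c604c_gt.RigB1
section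
/-!
Normal coordinates of a metric with model Jacobi fields are those of Fubini-Study
(see PLAN.md, section Rig).
-/

set_option maxSynthPendingDepth 3

open Set Filter Topology MeasureTheory
open scoped ContDiff

noncomputable section
namespace Pool.Agent.Work.MP_8c604c_gt

open Real

variable {n : ℕ}

/-- The Fubini-Study logarithm at `o`, on the set where `inner o y ≠ 0`. -/
def lgF (o y : E n) : E n :=
  (arctan (‖hor o y‖ / (‖o‖ * ‖nu o y‖)) * ‖o‖ / ‖hor o ((nu o y)⁻¹ • y)‖) • hor o ((nu o y)⁻¹ • y)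

private theorem nu_rsmul' (r : ℝ) (z u : E n) : nu z (r • u) = (r : ℂ) * nu z u := by
  have : nu z (r • u) = r • nu z u := map_smul (nuL z) r u
  rw [this, Complex.real_smul]

private theorem hor_rsmul' (r : ℝ) (z u : E n) : hor z (r • u) = r • hor z u :=
  map_smul (horL z) r u

private theorem hor_add' (z u w : E n) : hor z (u + w) = hor z u + hor z w :=
  map_add (horL z) u w

private theorem hor_self' {o : E n} (ho : o ≠ 0) : hor o o = 0 := by
  rw [hor_def, nu_self ho, one_smul, sub_self]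

private theorem int_arctan {r : ℝ} (hr : r ≠ 0) :
    ∫ t in (0 : ℝ)..1, (1 + t ^ 2 * r ^ 2)⁻¹ = arctan r / r := by
  have hd : ∀ t ∈ uIcc (0 : ℝ) 1,
      HasDerivAt (fun s => arctan (s * r) / r) ((1 + t ^ 2 * r ^ 2)⁻¹) t := by
    intro t _
    have h1 : HasDerivAt (fun s : ℝ => s * r) r t := by
      simpa using (hasDerivAt_id t).mul_const r
    have h2 := (h1.arctan).div_const r
    rw [mul_div_assoc, div_self hr, mul_one, one_div, mul_pow] at h2
    exact h2
  have hc : Continuous fun t : ℝ => (1 + t ^ 2 * r ^ 2)⁻¹ := by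
    refine Continuous.inv₀ (by fun_prop) fun t => ?_
    positivity
  rw [intervalIntegral.integral_eq_sub_of_hasDerivAt hd (hc.intervalIntegrable _ _)]
  simp

private theorem norm_ratio {o : E n} (y : E n) :
    ‖hor o y‖ / (‖o‖ * ‖nu o y‖) = ‖hor o ((nu o y)⁻¹ • y)‖ / ‖o‖ := by
  rw [hor_smul, norm_smul, norm_inv]
  rw [div_eq_mul_inv, div_eq_mul_inv, mul_inv]
  ring

private theorem lgF_eq {o : E n} (ho : o ≠ 0) (y : E n) :
    lgF o y = (∫ t in (0 : ℝ)..1,
      (1 + t ^ 2 * (‖hor o ((nu o y)⁻¹ • y)‖ ^ 2 / ‖o‖ ^ 2))⁻¹) • hor o ((nu o y)⁻¹ • y) := by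
  unfold lgF
  rw [norm_ratio]
  by_cases h : hor o ((nu o y)⁻¹ • y) = 0
  · rw [h, smul_zero, smul_zero]
  · have h1 : ‖hor o ((nu o y)⁻¹ • y)‖ ≠ 0 := norm_ne_zero_iff.2 h
    have h2 : ‖o‖ ≠ 0 := norm_ne_zero_iff.2 ho
    rw [← div_pow, int_arctan (div_ne_zero h1 h2)]
    congr 1
    field_simp

theorem contDiffOn_lgF {o : E n} (ho : o ≠ 0) : ContDiffOn ℝ ∞ (lgF o) {y | nu o y ≠ 0} := by
  have hnu : ContDiff ℝ ∞ (fun y : E n => nu o y) := (nuL o).contDiff
  have hU : IsOpen {y : E n | nu o y ≠ 0} := isOpen_ne_fun hnu.continuous continuous_const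
  have hh : ContDiffOn ℝ ∞ (fun y : E n => hor o ((nu o y)⁻¹ • y)) {y | nu o y ≠ 0} := by
    have h1 : ContDiffOn ℝ ∞ (fun y : E n => (nu o y)⁻¹) {y | nu o y ≠ 0} :=
      hnu.contDiffOn.inv fun y hy => hy
    have h2 : ContDiffOn ℝ ∞ (fun y : E n => (nu o y)⁻¹ • y) {y | nu o y ≠ 0} :=
      h1.smul contDiffOn_id
    exact (horL o).contDiff.comp_contDiffOn h2
  have hq : ContDiffOn ℝ ∞ (fun y : E n => ‖hor o ((nu o y)⁻¹ • y)‖ ^ 2 / ‖o‖ ^ 2)
      {y | nu o y ≠ 0} := (hh.norm_sq ℝ).div_const _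
  have hF : ContDiffOn ℝ ∞
      (fun p : ℝ × E n => (1 + p.1 ^ 2 * (‖hor o ((nu o p.2)⁻¹ • p.2)‖ ^ 2 / ‖o‖ ^ 2))⁻¹)
      {p | p.2 ∈ {y : E n | nu o y ≠ 0}} := by
    refine ContDiffOn.inv ?_ fun p _ => by positivity
    refine contDiffOn_const.add ((contDiffOn_fst.pow 2).mul ?_)
    exact hq.comp contDiffOn_snd fun p hp => hp
  have hI := contDiffOn_integral hU hF 0 1
  exact (hI.smul hh).congr fun y _ => lgF_eq ho y

theorem lgF_smul {o : E n} {c : ℂ} (hc : c ≠ 0) (y : E n) : lgF o (c • y) = lgF o y := by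
  have h1 : (nu o (c • y))⁻¹ • c • y = (nu o y)⁻¹ • y := by
    rw [nu_smul, smul_smul, mul_inv, mul_comm c⁻¹, mul_assoc, inv_mul_cancel₀ hc, mul_one]
  unfold lgF
  rw [norm_ratio, norm_ratio, h1]

theorem lgF_norm {o y : E n} (ho : o ≠ 0) :
    nu o (lgF o y) = 0 ∧ √(fsM n o (lgF o y) (lgF o y)) < π / 2 := by
  have h0 : nu o (lgF o y) = 0 := by
    unfold lgF
    rw [nu_rsmul', nu_hor ho, mul_zero]
  refine ⟨h0, ?_⟩
  have h2 : 0 < ‖o‖ := norm_pos_iff.2 ho
  rw [fsM_eq, hor_of_nu h0, real_inner_self_eq_norm_sq,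
    show (‖o‖ ^ 2)⁻¹ * ‖lgF o y‖ ^ 2 = (‖lgF o y‖ / ‖o‖) ^ 2 by field_simp,
    Real.sqrt_sq (by positivity), div_lt_iff₀ h2]
  unfold lgF
  rw [norm_ratio]
  set h := hor o ((nu o y)⁻¹ • y)
  by_cases hh : h = 0
  · rw [hh, smul_zero, norm_zero]
    have := Real.pi_pos
    positivity
  · have h1 : 0 < ‖h‖ := norm_pos_iff.2 hh
    have h3 : 0 ≤ arctan (‖h‖ / ‖o‖) := Real.arctan_nonneg.2 (by positivity)
    rw [norm_smul, Real.norm_of_nonneg (by positivity), div_mul_cancel₀ _ h1.ne']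
    exact mul_lt_mul_of_pos_right (Real.arctan_lt_pi_div_two _) h2

theorem lgF_ray {o h : E n} (ho : o ≠ 0) (h0 : nu o h = 0) (h1 : ‖h‖ = ‖o‖) {t : ℝ}
    (ht : |t| < π / 2) : lgF o (cos t • o + sin t • h) = t • h := by
  have hc : 0 < cos t := Real.cos_pos_of_mem_Ioo ⟨(abs_lt.1 ht).1, (abs_lt.1 ht).2⟩
  have h2 : 0 < ‖o‖ := norm_pos_iff.2 ho
  have hn : nu o (cos t • o + sin t • h) = ((cos t : ℝ) : ℂ) := by
    rw [nu_add, nu_rsmul', nu_rsmul', nu_self ho, h0, mul_one, mul_zero, add_zero]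
  have hh : hor o (cos t • o + sin t • h) = sin t • h := by
    rw [hor_add', hor_rsmul', hor_rsmul', hor_self' ho, hor_of_nu h0, smul_zero, zero_add]
  have hh' : hor o ((nu o (cos t • o + sin t • h))⁻¹ • (cos t • o + sin t • h)) = tan t • h := by
    rw [hor_smul, hh, hn, ← Complex.ofReal_inv, Complex.coe_smul, smul_smul, Real.tan_eq_sin_div_cos,
      div_eq_inv_mul]
  unfold lgF
  rw [norm_ratio, hh', norm_smul, h1, smul_smul, mul_div_cancel_right₀ _ h2.ne', Real.norm_eq_abs]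
  congr 1
  rcases lt_trichotomy t 0 with h3 | h3 | h3
  · have h4 : tan t < 0 := Real.tan_neg_of_neg_of_pi_div_two_lt h3 (abs_lt.1 ht).1
    rw [abs_of_neg h4, Real.arctan_neg, Real.arctan_tan (abs_lt.1 ht).1 (abs_lt.1 ht).2]
    have := h4.ne
    field_simp
  · simp [h3]
  · have h4 : 0 < tan t := Real.tan_pos_of_pos_of_lt_pi_div_two h3 (abs_lt.1 ht).2
    rw [abs_of_pos h4, Real.arctan_tan (abs_lt.1 ht).1 (abs_lt.1 ht).2]
    field_simp

theorem exists_ray {o y : E n} (hn : 1 ≤ n) (ho : o ≠ 0) (hy : nu o y ≠ 0) :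
    ∃ (h : E n) (t : ℝ) (c : ℂ), nu o h = 0 ∧ ‖h‖ = ‖o‖ ∧ t ∈ Ico 0 (π / 2) ∧ c ≠ 0 ∧
      y = c • (cos t • o + sin t • h) := by
  have h2 : 0 < ‖o‖ := norm_pos_iff.2 ho
  set h := hor o ((nu o y)⁻¹ • y) with hdef
  have hy' : y = nu o y • (o + h) := by
    rw [hdef, hor_def, nu_smul, inv_mul_cancel₀ hy, one_smul, add_sub_cancel, smul_smul,
      mul_inv_cancel₀ hy, one_smul]
  have key : ∀ k : E n, nu o k = 0 → k ≠ 0 →
      nu o ((‖o‖ / ‖k‖) • k) = 0 ∧ ‖(‖o‖ / ‖k‖) • k‖ = ‖o‖ := by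
    intro k hk hk0
    have h1 : 0 < ‖k‖ := norm_pos_iff.2 hk0
    refine ⟨by rw [nu_rsmul', hk, mul_zero], ?_⟩
    rw [norm_smul, Real.norm_of_nonneg (by positivity), div_mul_cancel₀ _ h1.ne']
  by_cases hh : h = 0
  · obtain ⟨u, hu⟩ : ∃ u : E n, hor o u ≠ 0 := by
      by_contra hcon
      push Not at hcon
      have h3 : Module.finrank ℂ (E n) ≤ 1 := by
        refine finrank_le_one o fun w => ?_
        obtain ⟨c, hc⟩ := (hor_eq_zero_iff ho w).1 (hcon w)
        exact ⟨c, hc.symm⟩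
      rw [finrank_euclideanSpace_fin] at h3
      omega
    obtain ⟨k1, k2⟩ := key (hor o u) (nu_hor ho u) hu
    refine ⟨_, 0, nu o y, k1, k2, ⟨le_rfl, by have := Real.pi_pos; positivity⟩, hy, ?_⟩
    rw [cos_zero, sin_zero, one_smul, zero_smul]
    rwa [hh] at hy'
  · have h1 : 0 < ‖h‖ := norm_pos_iff.2 hh
    obtain ⟨k1, k2⟩ := key h (nu_hor ho _) hh
    set t := arctan (‖h‖ / ‖o‖) with ht
    have hc : 0 < cos t := Real.cos_arctan_pos _
    have htan : sin t = cos t * (‖h‖ / ‖o‖) := by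
      have h5 : tan t = ‖h‖ / ‖o‖ := Real.tan_arctan _
      rw [← h5, Real.tan_eq_sin_div_cos]
      field_simp
    have hc' : ((cos t : ℝ) : ℂ) ≠ 0 := Complex.ofReal_ne_zero.2 hc.ne'
    refine ⟨_, t, nu o y * ((cos t : ℝ) : ℂ)⁻¹, k1, k2,
      ⟨Real.arctan_nonneg.2 (by positivity), Real.arctan_lt_pi_div_two _⟩,
      mul_ne_zero hy (inv_ne_zero hc'), ?_⟩
    have h6 : cos t • o + sin t • (‖o‖ / ‖h‖) • h = ((cos t : ℝ) : ℂ) • (o + h) := by
      rw [Complex.coe_smul, smul_add, smul_smul, htan]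
      congr 2
      field_simp
    rw [h6, smul_smul, mul_assoc, inv_mul_cancel₀ hc', mul_one]
    exact hy'

end Pool.Agent.Work.MP_8c604c_gt
end
end

-- merged part: Pool.Agent.Work.MP_8c604c_gt.RigBAux
section
/-!
Auxiliary facts for RigB: Hermitian structures of the same dimension are isomorphic, two limits,
and the derivative of the Fubini-Study logarithm.
-/

set_option maxSynthPendingDepth 3

open Set Filter Topology MeasureTheory
open scoped ContDiff

noncomputable section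
namespace Pool.Agent.Work.MP_8c604c_gt

open Real

section Lin
variable {H : Type} [NormedAddCommGroup H] [NormedSpace ℝ H] [FiniteDimensional ℝ H]

theorem rb_basis {B : H →L[ℝ] H →L[ℝ] ℝ} (hs : ∀ u w, B u w = B w u)
    (hp : ∀ u, u ≠ 0 → 0 < B u u) {J : H →L[ℝ] H} (hJ : ∀ u w, B (J u) w = -B u (J w))
    (hJ' : ∀ u, J (J u) = -u) {m : ℕ} (hm : Module.finrank ℝ H = 2 * m) :
    ∃ b : Module.Basis (Fin m ⊕ Fin m) ℝ H, (∀ i j, B (b i) (b j) = if i = j then 1 else 0) ∧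
      ∀ i, b (Sum.inr i) = J (b (Sum.inl i)) := by
  classical
  obtain ⟨e, h1, h2⟩ := exists_frame hs hp hJ hJ' hm
  let v : Fin m ⊕ Fin m → H := Sum.elim e (fun i => J (e i))
  have hv : ∀ i j, B (v i) (v j) = if i = j then 1 else 0 := by
    rintro (i | i) (j | j)
    · simpa [v] using h1 i j
    · simpa [v] using h2 i j
    · simp only [v, Sum.elim_inr, Sum.elim_inl]
      rw [hs, h2]
      simp
    · simp only [v, Sum.elim_inr]
      rw [hJ, hJ', map_neg, neg_neg, h1]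
      simp
  have hli : LinearIndependent ℝ v := by
    rw [Fintype.linearIndependent_iff]
    intro c hc j
    have := congrArg (fun x => B x (v j)) hc
    simp only [map_sum, map_smul, sum_apply, smul_apply, hv,
      smul_eq_mul, mul_ite, mul_one, mul_zero, Finset.sum_ite_eq', Finset.mem_univ, if_true,
      map_zero, zero_apply] at this
    exact this
  have hcard : Fintype.card (Fin m ⊕ Fin m) = Module.finrank ℝ H := by
    simp [hm, two_mul]
  refine ⟨basisOfLinearIndependentOfCardEqFinrank' v hli hcard, fun i j => ?_, fun i => ?_⟩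
  · simpa using hv i j
  · simp [v]

theorem rb_iso {B₀ B : H →L[ℝ] H →L[ℝ] ℝ} (hs₀ : ∀ u w, B₀ u w = B₀ w u)
    (hp₀ : ∀ u, u ≠ 0 → 0 < B₀ u u) {J₀ : H →L[ℝ] H} (hJ₀ : ∀ u w, B₀ (J₀ u) w = -B₀ u (J₀ w))
    (hJ₀' : ∀ u, J₀ (J₀ u) = -u) (hs : ∀ u w, B u w = B w u)
    (hp : ∀ u, u ≠ 0 → 0 < B u u) {J : H →L[ℝ] H} (hJ : ∀ u w, B (J u) w = -B u (J w))
    (hJ' : ∀ u, J (J u) = -u) {m : ℕ} (hm : Module.finrank ℝ H = 2 * m) :
    ∃ L : H →L[ℝ] H, (∀ u w, B (L u) (L w) = B₀ u w) ∧ ∀ u, L (J₀ u) = J (L u) := by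
  obtain ⟨b₀, h1, h2⟩ := rb_basis hs₀ hp₀ hJ₀ hJ₀' hm
  obtain ⟨b, h3, h4⟩ := rb_basis hs hp hJ hJ' hm
  let L : H →L[ℝ] H := LinearMap.toContinuousLinearMap (b₀.constr ℝ b)
  have hL : ∀ i, L (b₀ i) = b i := fun i => by simp [L]
  refine ⟨L, fun u w => ?_, fun u => ?_⟩
  · have : (B.bilinearComp L L).toLinearMap₁₂ = B₀.toLinearMap₁₂ := by
      refine LinearMap.ext_basis b₀ b₀ fun i j => ?_
      simp [hL, h1, h3]
    exact congrArg (fun T => T u w) this
  · have : (L.comp J₀ : H →ₗ[ℝ] H) = (J.comp L : H →ₗ[ℝ] H) := by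
      refine b₀.ext ?_
      rintro (i | i)
      · simp [← h2, hL, h4]
      · show L (J₀ (b₀ (Sum.inr i))) = J (L (b₀ (Sum.inr i)))
        rw [hL, h2, h4, hJ₀', hJ', map_neg, hL]
    exact congrArg (fun T => T u) this

end Lin

theorem rb_polar {H : Type} [AddCommGroup H] {f : H → H → ℝ} (hs : ∀ u w, f u w = f w u)
    (ha : ∀ u v w, f (u + v) w = f u w + f v w) (h0 : ∀ u, f u u = 0) (u w : H) : f u w = 0 := by
  have h1 := h0 (u + w)
  rw [ha, hs u, hs w, ha, ha, h0, h0, hs w u] at h1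
  linarith

theorem rb_lim3 : Tendsto (fun x : ℝ => (sin x - x) / x ^ 3) (𝓝[>] 0) (𝓝 (-1 / 6)) := by
  have h0 : Tendsto (fun x : ℝ => x * (5 / 96)) (𝓝[>] 0) (𝓝 0) := by
    have : Tendsto (fun x : ℝ => x * (5 / 96)) (𝓝 0) (𝓝 (0 * (5 / 96))) :=
      (continuous_id.mul continuous_const).tendsto 0
    rw [zero_mul] at this
    exact this.mono_left nhdsWithin_le_nhds
  rw [tendsto_iff_norm_sub_tendsto_zero]
  refine squeeze_zero' (Eventually.of_forall fun _ => norm_nonneg _) ?_ h0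
  filter_upwards [Ioo_mem_nhdsGT (show (0 : ℝ) < 1 by norm_num)] with x hx
  have hx0 : 0 < x := hx.1
  have h1 := Real.sin_bound (x := x) (by rw [abs_of_pos hx0]; exact hx.2.le)
  have e : (sin x - x) / x ^ 3 - -1 / 6 = (sin x - (x - x ^ 3 / 6)) / x ^ 3 := by
    field_simp
    ring
  rw [e, Real.norm_eq_abs, abs_div, abs_of_pos (pow_pos hx0 3), div_le_iff₀ (pow_pos hx0 3)]
  rw [abs_of_pos hx0] at h1
  have h2 : x ^ 5 ≤ x ^ 4 := pow_le_pow_of_le_one hx0.le hx.2.le (by norm_num)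
  have h3 : 0 < x ^ 4 := pow_pos hx0 4
  nlinarith

theorem rb_lim1 : Tendsto (fun x : ℝ => sin x / x) (𝓝[>] 0) (𝓝 1) := by
  have h0 : Tendsto (fun x : ℝ => x) (𝓝[>] 0) (𝓝 0) := tendsto_id.mono_left nhdsWithin_le_nhds
  have h1 := (rb_lim3.mul (h0.pow 2)).add_const 1
  simp only [ne_eq, OfNat.ofNat_ne_zero, not_false_eq_true, zero_pow, mul_zero, zero_add] at h1
  refine h1.congr' ?_
  filter_upwards [self_mem_nhdsWithin] with x hx
  have : x ≠ 0 := ne_of_gt hx
  field_simp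
  ring

theorem rb_lim (X Y : ℝ) {s : ℝ} (hs : 0 < s) :
    Tendsto (fun t : ℝ => (((sin (t * s) / (t * s)) ^ 2 - 1) * X -
      sin (t * s) ^ 4 / (t * s) ^ 2 * Y) / t ^ 2) (𝓝[>] 0) (𝓝 (s ^ 2 * (-1 / 3 * X - Y))) := by
  have h0 : Tendsto (fun t : ℝ => t * s) (𝓝[>] 0) (𝓝[>] 0) := by
    refine tendsto_nhdsWithin_iff.2 ⟨?_, ?_⟩
    · have : Tendsto (fun x : ℝ => x * s) (𝓝 0) (𝓝 (0 * s)) :=
        (continuous_id.mul continuous_const).tendsto 0
      rw [zero_mul] at this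
      exact this.mono_left nhdsWithin_le_nhds
    · filter_upwards [self_mem_nhdsWithin] with t ht
      exact mul_pos ht hs
  have h1 := ((((rb_lim3.mul (rb_lim1.add_const 1)).mul_const X).sub
    ((rb_lim1.pow 4).mul_const Y)).const_mul (s ^ 2)).comp h0
  have e : s ^ 2 * (-1 / 6 * (1 + 1) * X - 1 ^ 4 * Y) = s ^ 2 * (-1 / 3 * X - Y) := by ring
  rw [e] at h1
  refine h1.congr' ?_
  filter_upwards [self_mem_nhdsWithin] with t ht
  have : t ≠ 0 := ne_of_gt ht
  have : s ≠ 0 := hs.ne'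
  simp only [Function.comp]
  field_simp
  ring

variable {n : ℕ}

theorem rb_rin (u w : E n) : inner ℝ u w = (inner ℂ u w).re := by
  simp [PiLp.inner_apply, Complex.inner]

theorem rb_inner_zero {o u : E n} (ho : o ≠ 0) (h : nu o u = 0) : inner ℂ o u = 0 := by
  rw [nu_def, div_eq_zero_iff] at h
  refine h.resolve_right ?_
  have : ‖o‖ ≠ 0 := norm_ne_zero_iff.2 ho
  exact_mod_cast pow_ne_zero 2 this

theorem rb_fs_hor {o u : E n} (ho : o ≠ 0) (h : nu o u = 0) (w : E n) :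
    fsM n o u w = (inner ℂ u w).re / ‖o‖ ^ 2 := by
  have h1 : inner ℂ u o = 0 := inner_eq_zero_symm.1 (rb_inner_zero ho h)
  have : ‖o‖ ≠ 0 := norm_ne_zero_iff.2 ho
  rw [fsM_apply ho, fs, h1]
  simp only [zero_mul, Complex.zero_re, sub_zero]
  field_simp

theorem rb_nu_rsmul (r : ℝ) (z u : E n) : nu z (r • u) = r * nu z u := by
  rw [← nuL_apply, map_smul, nuL_apply, Complex.real_smul]

theorem rb_hor_add (z u w : E n) : hor z (u + w) = hor z u + hor z w := map_add (horL z) u w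

theorem rb_hor_self {o : E n} (ho : o ≠ 0) : hor o o = 0 := by
  rw [hor_def, nu_self ho, one_smul, sub_self]

/-- The affine coordinate. -/
def rbP (o y : E n) : E n := hor o ((nu o y)⁻¹ • y)

/-- The radial part of the logarithm. -/
def rbF (o p : E n) : E n := (arctan (‖p‖ / ‖o‖) * ‖o‖ / ‖p‖) • p

theorem rb_lgF (o y : E n) : lgF o y = rbF o (rbP o y) := by
  have : ‖hor o y‖ / (‖o‖ * ‖nu o y‖) = ‖rbP o y‖ / ‖o‖ := by
    rw [rbP, hor_smul, norm_smul, norm_inv]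
    ring
  rw [lgF, this]
  rfl

theorem rb_y {o y : E n} (hy : nu o y ≠ 0) : y = nu o y • (o + rbP o y) := by
  rw [rbP, hor_def, nu_smul, inv_mul_cancel₀ hy, one_smul, add_sub_cancel, smul_smul,
    mul_inv_cancel₀ hy, one_smul]

theorem rb_dP {o y : E n} (ho : o ≠ 0) (hy : nu o y ≠ 0) (a : E n) :
    ∃ b : E n, nu o b = 0 ∧ HasDerivAt (fun ε : ℝ => rbP o (y + ε • a)) b 0 ∧
      fsM n y a a = fsM n (o + rbP o y) b b := by
  have h1 : HasDerivAt (fun ε : ℝ => y + ε • a) a 0 := by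
    simpa using ((hasDerivAt_id (0 : ℝ)).smul_const a).const_add y
  have h2 : HasDerivAt (fun ε : ℝ => nu o (y + ε • a)) (nu o a) 0 :=
    (nuL o).hasFDerivAt.comp_hasDerivAt 0 h1
  have h3 := (h2.inv (by simpa using hy)).smul h1
  have h4 := (horL o).hasFDerivAt.comp_hasDerivAt 0 h3
  refine ⟨_, nu_hor ho _, h4, ?_⟩
  simp only [zero_smul, add_zero, Pi.inv_apply]
  have hz : o + rbP o y = (nu o y)⁻¹ • y := by
    conv_rhs => rw [rb_y hy, ← rb_y hy]
    nth_rewrite 3 [rb_y hy]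
    rw [smul_smul, inv_mul_cancel₀ hy, one_smul]
  have hy0 : y ≠ 0 := by
    rintro rfl
    exact hy (map_zero (nuL o))
  have hz0 : (nu o y)⁻¹ • y ≠ 0 := smul_ne_zero (inv_ne_zero hy) hy0
  have hb : hor o ((nu o y)⁻¹ • a + (-nu o a / nu o y ^ 2) • y) =
      (nu o y)⁻¹ • a + (-nu o a / nu o y) • ((nu o y)⁻¹ • y) := by
    rw [hor_def, nu_add, nu_smul, nu_smul, smul_smul]
    have e1 : (nu o y)⁻¹ * nu o a + -nu o a / nu o y ^ 2 * nu o y = 0 := by
      field_simp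
      ring
    have e2 : -nu o a / nu o y * (nu o y)⁻¹ = -nu o a / nu o y ^ 2 := by field_simp
    rw [e1, e2, zero_smul, sub_zero]
  rw [hb, hz]
  simp only [map_add, add_apply]
  rw [isMetric_fsM.vert _ _ _ hz0, isMetric_fsM.vert _ _ _ hz0, isMetric_fsM.vert' _ _ hz0,
    isMetric_fsM.inv _ _ _ _ (inv_ne_zero hy) hy0]
  ring

theorem rb_dF {o p : E n} (ho : o ≠ 0) (hp : p ≠ 0) {c : ℝ → E n} {b : E n}
    (hc : HasDerivAt c b 0) (h0 : c 0 = p) :
    HasDerivAt (fun ε => rbF o (c ε))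
      ((arctan (‖p‖ / ‖o‖) * ‖o‖ / ‖p‖) • b +
        ((1 / (1 + (‖p‖ / ‖o‖) ^ 2) - arctan (‖p‖ / ‖o‖) * ‖o‖ / ‖p‖) *
          ((inner ℂ p b).re / ‖p‖ ^ 2)) • p) 0 := by
  have ho' : ‖o‖ ≠ 0 := norm_ne_zero_iff.2 ho
  have hp' : ‖p‖ ≠ 0 := norm_ne_zero_iff.2 hp
  have h1 : HasDerivAt (fun ε => ‖c ε‖) ((inner ℂ p b).re / ‖p‖) 0 := by
    have h2 := hc.norm_sq.sqrt (by rw [h0]; exact pow_ne_zero 2 hp')
    simp only [sqrt_sq (norm_nonneg _), h0, rb_rin] at h2
    convert h2 using 1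
    field_simp
  have h3 := (((h1.div_const ‖o‖).arctan.mul_const ‖o‖).div h1 (by rw [h0]; exact hp')).smul hc
  simp only [h0, Pi.div_apply] at h3
  refine h3.congr_deriv ?_
  congr 2
  field_simp

/-- The Fubini-Study metric in its normal coordinates. -/
theorem rb_model {o y : E n} (ho : o ≠ 0) (hy : nu o y ≠ 0) (hy' : hor o y ≠ 0) (a : E n) :
    ∃ (h : E n) (t : ℝ), nu o h = 0 ∧ fsM n o h h = 1 ∧ t ∈ Ioo 0 (π / 2) ∧ lgF o y = t • h ∧
      fsM n y a a = fsM n o h (fderiv ℝ (lgF o) y a) ^ 2 +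
        (sin t / t) ^ 2 * (fsM n o (fderiv ℝ (lgF o) y a) (fderiv ℝ (lgF o) y a) -
          fsM n o h (fderiv ℝ (lgF o) y a) ^ 2) -
        sin t ^ 4 / t ^ 2 * fsM n o (fderiv ℝ (lgF o) y a) (Complex.I • h) ^ 2 := by
  obtain ⟨b, hb, h1, h2⟩ := rb_dP ho hy a
  set p := rbP o y with hpd
  have hp : p ≠ 0 := by
    rw [hpd, rbP, hor_smul]
    exact smul_ne_zero (inv_ne_zero hy) hy'
  have hp0 : nu o p = 0 := nu_hor ho _
  have ho' : 0 < ‖o‖ := norm_pos_iff.2 ho
  have hp' : 0 < ‖p‖ := norm_pos_iff.2 hp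
  have h3 := rb_dF ho hp h1 (by simp [hpd])
  have hU : IsOpen {y : E n | nu o y ≠ 0} := isOpen_ne_fun (nuL o).continuous continuous_const
  have hd : DifferentiableAt ℝ (lgF o) y :=
    ((contDiffOn_lgF ho).contDiffAt (hU.mem_nhds hy)).differentiableAt (by simp)
  have h4 : HasDerivAt (fun ε : ℝ => lgF o (y + ε • a)) (fderiv ℝ (lgF o) y a) 0 := by
    have h1 : HasDerivAt (fun ε : ℝ => y + ε • a) a 0 := by
      simpa using ((hasDerivAt_id (0 : ℝ)).smul_const a).const_add y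
    exact hd.hasFDerivAt.comp_hasDerivAt_of_eq 0 h1 (by simp)
  simp only [rb_lgF] at h4
  have h5 := h4.unique h3
  set r := ‖p‖ / ‖o‖ with hr
  have hr0 : 0 < r := div_pos hp' ho'
  set t := arctan r with ht
  have ht0 : 0 < t := by rw [ht, ← arctan_zero]; exact arctan_strictMono hr0
  have hs : sin t ^ 2 = r ^ 2 / (1 + r ^ 2) := by
    rw [ht, sin_arctan, div_pow, sq_sqrt (by positivity)]
  have hpr : ‖p‖ = r * ‖o‖ := by rw [hr]; field_simp
  have hh : nu o (r⁻¹ • p) = 0 := by rw [rb_nu_rsmul, hp0, mul_zero]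
  have hpp : inner ℂ p p = ((r ^ 2 * ‖o‖ ^ 2 : ℝ) : ℂ) := by
    rw [inner_self_eq_norm_sq_to_K, hpr]
    push_cast
    rw [mul_pow]
    rfl
  have hop := rb_inner_zero ho hp0
  have hob := rb_inner_zero ho hb
  have hz : o + p ≠ 0 := by
    intro h
    have := congrArg (nu o) h
    rw [nu_add, nu_self ho, hp0, add_zero, ← nuL_apply, map_zero] at this
    exact one_ne_zero this
  have hn : ‖o + p‖ ^ 2 = ‖o‖ ^ 2 * (1 + r ^ 2) := by
    rw [@norm_add_sq ℂ, hop, hpr]
    simp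
    ring
  refine ⟨r⁻¹ • p, t, hh, ?_, ⟨ht0, arctan_lt_pi_div_two r⟩, ?_, ?_⟩
  · rw [rb_fs_hor ho hh, ← rb_rin, real_inner_self_eq_norm_sq, norm_smul, hpr, norm_inv,
      Real.norm_eq_abs, abs_of_pos hr0]
    field_simp
  · rw [rb_lgF, ← hpd, rbF, smul_smul, ← hr, ← ht, hpr]
    congr 1
    field_simp
  · have ha : nu o (fderiv ℝ (lgF o) y a) = 0 := by
      have : fderiv ℝ (lgF o) y a = _ := h5
      rw [this, nu_add, rb_nu_rsmul, rb_nu_rsmul, hb, hp0]
      simp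
    rw [h2, rb_fs_hor ho hh, rb_fs_hor ho ha, rb_fs_hor ho ha, fsM_apply hz, fs,
      show ‖o + p‖ ^ 4 = (‖o + p‖ ^ 2) ^ 2 by ring, hn,
      show sin t ^ 4 = (sin t ^ 2) ^ 2 by ring, div_pow (sin t), hs]
    have : fderiv ℝ (lgF o) y a = _ := h5
    rw [this, hpr]
    have hbp : inner ℂ b p = starRingEnd ℂ (inner ℂ p b) := (inner_conj_symm b p).symm
    have hbo : inner ℂ b o = 0 := inner_eq_zero_symm.1 hob
    simp only [← Complex.coe_smul, inner_add_left, inner_add_right, inner_smul_left,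
      inner_smul_right, hbp, hbo, hob, hpp, Complex.conj_ofReal, zero_add]
    generalize inner ℂ p b = w
    generalize inner ℂ b b = A
    simp only [Complex.add_re, Complex.mul_re, Complex.ofReal_re, Complex.ofReal_im,
      Complex.conj_re, Complex.conj_im, Complex.I_re, Complex.I_im, Complex.add_im, Complex.mul_im]
    have := ht0.ne'
    have := hr0.ne'
    have := ho'.ne'
    field_simp
    ring

end Pool.Agent.Work.MP_8c604c_gt
end
end

-- merged part: Pool.Agent.Work.MP_8c604c_gt.RigB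
section
/-!
Normal coordinates of a metric with model Jacobi fields are those of Fubini-Study
(see PLAN.md, section Rig).
-/

set_option maxSynthPendingDepth 3

open Set Filter Topology MeasureTheory
open scoped ContDiff

noncomputable section
namespace Pool.Agent.Work.MP_8c604c_gt

open Real

variable {n : ℕ} {g : Met n} {G : Geo g}

/-- All Jacobi fields have the model length. -/
def Model (G : Geo g) (KD : KData g G) : Prop :=
  ∀ x ∈ OO n, ∀ τ ∈ Ioo 0 (π / 2), ∀ u, g x.1 u x.2 = 0 →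
    g (G.Z τ x) (spd g x • G.JJ τ x (0, u)) (spd g x • G.JJ τ x (0, u)) =
      sin τ ^ 2 * (g x.1 u u - g x.1 u (KD.K x) ^ 2) + (sin (2 * τ) / 2) ^ 2 * g x.1 u (KD.K x) ^ 2

/-- A chart: `F = ex p ∘ L ∘ lgF o` with `L` a linear isometry. -/
def chart (G : Geo g) (o p : E n) (L : E n →L[ℝ] E n) (y : E n) : E n := G.ex p (L (lgF o y))

/-- The metric in normal coordinates. -/
theorem rb_normal (h : IsMetric g) {KD : KData g G} (hM : Model G KD) {o v : E n} (ho : o ≠ 0)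
    (h0 : nu o v = 0) (h1 : g o v v = 1) {τ : ℝ} (hτ : τ ∈ Ioo 0 (π / 2)) (a : E n) :
    g (G.ex o (τ • v)) (fderiv ℝ (G.ex o) (τ • v) a) (fderiv ℝ (G.ex o) (τ • v) a) =
      g o v a ^ 2 + (sin τ / τ) ^ 2 * (g o a a - g o v a ^ 2) -
        sin τ ^ 4 / τ ^ 2 * g o a (KD.K (o, v)) ^ 2 := by
  obtain ⟨hx, hs, hv⟩ := h.unit_mem ho h0 h1
  have e1 := G.fderiv_ex h τ hx hτ.1 a
  have e2 := G.ex_vel h τ hx
  simp only [hv, hs] at e1 e2
  have hK := (KD.isK _ hx).perp
  simp only at hK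
  have hK' : g o v (KD.K (o, v)) = 0 := by rw [h.symm _ _ _ ho, hK]
  have hav : g o a v = g o v a := h.symm _ _ _ ho
  have e3 : G.JJ τ (o, v) (0, a - g o v a • v) = G.JJ τ (o, v) (0, a) := by
    have hB : g o v a • v ∈ Bs (o, v) := mem_Bs.2 ⟨0, g o v a, by simp⟩
    have : ((0, a - g o v a • v) : VV n) = (0, a) - (0, g o v a • v) := by simp
    rw [this, map_sub, G.JJ_Bs h τ hx hB, sub_zero]
  have e4 := hM _ hx τ hτ (a - g o v a • v) (by simp [hav, h1])
  simp only [hs, one_smul, e3, map_sub, map_smul, sub_apply, smul_apply, smul_eq_mul, hav, h1,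
    hK'] at e4
  have e5 : g (G.Z τ (o, v)) (vel g (G.psi τ (o, v))) (vel g (G.psi τ (o, v))) = 1 :=
    h.vel_unit (G.psi_mem h τ hx)
  have e6 : g (G.Z τ (o, v)) (vel g (G.psi τ (o, v))) (G.JJ τ (o, v) (0, a)) = 0 := by
    rw [G.al_inv h τ hx]
    simp [al]
  have e7 : g (G.Z τ (o, v)) (G.JJ τ (o, v) (0, a)) (vel g (G.psi τ (o, v))) = 0 := by
    rw [h.symm _ _ _ (G.Z_ne h τ hx), e6]
  rw [e1, e2]
  simp only [map_add, map_smul, add_apply, smul_apply, smul_eq_mul, e4, e5, e6, e7]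
  have := hτ.1.ne'
  rw [sin_two_mul]
  field_simp
  linear_combination (sin τ ^ 2 * g o a (KD.K (o, v)) ^ 2) * sin_sq_add_cos_sq τ

/-- The horizontal space. -/
def rbH (o : E n) : Submodule ℝ (E n) := LinearMap.ker (nuL o : E n →ₗ[ℝ] ℂ)

theorem rb_mem {o u : E n} : u ∈ rbH o ↔ nu o u = 0 := Iff.rfl

theorem rb_finrank {o : E n} (ho : o ≠ 0) : Module.finrank ℝ (rbH o) = 2 * n := by
  have h1 := LinearMap.finrank_range_add_finrank_ker (nuL o : E n →ₗ[ℝ] ℂ)
  have h2 : LinearMap.range (nuL o : E n →ₗ[ℝ] ℂ) = ⊤ := by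
    rw [LinearMap.range_eq_top]
    intro c
    exact ⟨c • o, by
      show nu o (c • o) = c
      rw [nu_smul, nu_self ho, mul_one]⟩
  rw [h2, finrank_top, Complex.finrank_real_complex, finrank_E] at h1
  unfold rbH
  omega

/-- Projection to the horizontal space. -/
def rbPr {o : E n} (ho : o ≠ 0) : E n →L[ℝ] rbH o :=
  (horL o).codRestrict (rbH o) fun u => nu_hor ho u

theorem rbPr_coe {o : E n} (ho : o ≠ 0) (u : E n) : (rbPr ho u : E n) = hor o u := rfl

/-- Restriction of a metric to the horizontal space. -/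
def rbB (g : Met n) (o : E n) : rbH o →L[ℝ] rbH o →L[ℝ] ℝ :=
  (g o).bilinearComp (rbH o).subtypeL (rbH o).subtypeL

theorem rbB_apply (g : Met n) (o : E n) (u w : rbH o) : rbB g o u w = g o u w := rfl

theorem rb_OO {o : E n} (ho : o ≠ 0) {u : rbH o} (hu : u ≠ 0) : (o, (u : E n)) ∈ OO n :=
  mem_OO.2 ⟨ho, by
    show hor o u ≠ 0
    rw [hor_of_nu u.2]
    exact fun h => hu (Subtype.ext h)⟩

theorem rbB_pos (h : IsMetric g) {o : E n} (ho : o ≠ 0) (u : rbH o) (hu : u ≠ 0) :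
    0 < rbB g o u u := h.pos _ _ ho (rb_OO ho hu).2

theorem rb_smooth_ex (G : Geo g) {o : E n} (ho : o ≠ 0) : ContDiff ℝ ∞ (G.ex o) := by
  rw [← contDiffOn_univ]
  exact G.contDiffOn_ex.comp (f := fun u : E n => (o, u))
    (contDiff_const.prodMk contDiff_id).contDiffOn fun _ _ => ho

theorem rb_K (h : IsMetric g) (KD : KData g G) {x : VV n} (hx : x ∈ OO n) (h0 : nu x.1 x.2 = 0) :
    x.2 = spd g x • vel g x ∧ KD.K (x.1, vel g x) = KD.K x := by
  have e1 : x.2 = spd g x • vel g x := by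
    have := h.snd_eq hx
    rwa [h0, zero_smul, add_zero] at this
  refine ⟨e1, ?_⟩
  have hv := (h.unit_mem hx.1 (h.nu_vel hx.1) (h.vel_unit hx)).1
  have e2 := KD.eqv 1 (spd g x) 0 _ one_ne_zero (h.spd_pos hx) hv
  simp only [act, one_smul, zero_smul, add_zero] at e2
  rw [← e1] at e2
  exact e2.symm

/-- The conjugate direction is a complex structure. -/
theorem rb_J (h : IsMetric g) {KD : KData g G} (hM : Model G KD) {o : E n} (ho : o ≠ 0) :
    ∃ J : rbH o →L[ℝ] rbH o, (∀ u, u ≠ 0 → (J u : E n) = spd g (o, u) • KD.K (o, u)) ∧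
      (∀ u w, rbB g o (J u) w = -rbB g o u (J w)) ∧ ∀ u, J (J u) = -u := by
  let k : rbH o → rbH o := fun u => rbPr ho (spd g (o, u) • KD.K (o, u))
  have hk : ∀ u : rbH o, u ≠ 0 → (k u : E n) = spd g (o, u) • KD.K (o, u) := fun u hu => by
    refine hor_of_nu ?_
    rw [rb_nu_rsmul, (KD.isK _ (rb_OO ho hu)).hor, mul_zero]
  refine Exists.elim (linear_of_sq (B := rbB g o) (k := k)
    (fun u w => h.symm _ _ _ ho) (rbB_pos h ho) (fun u hu => ?_) (fun u hu => ?_)
    (fun u hu => ?_) (fun a => ?_)) fun J ⟨h1, h2, h3⟩ => ?_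
  rotate_right
  · exact ⟨J, fun u hu => by rw [← h1 u hu, hk u hu], h2, h3⟩
  · have hx := isOpen_OO.mem_nhds (rb_OO ho hu)
    have hi : DifferentiableAt ℝ (fun u : rbH o => ((o, (u : E n)) : VV n)) u :=
      (differentiableAt_const _).prodMk (rbH o).subtypeL.differentiableAt
    have a1 := ((h.contDiffOn_spd.contDiffAt hx).differentiableAt (by simp)).comp u hi
    have a2 := ((KD.smooth.contDiffAt hx).differentiableAt (by simp)).comp u hi
    exact (rbPr ho).differentiableAt.comp u (a1.smul a2)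
  · have := (KD.isK _ (rb_OO ho hu)).perp
    simp only at this
    rw [rbB_apply, hk u hu, map_smul, h.symm _ _ _ ho, this, smul_zero]
  · have := (KD.isK _ (rb_OO ho hu)).unit
    have e := h.spd_sq (x := (o, (u : E n))) ho
    simp only at this e
    rw [rbB_apply, rbB_apply, hk u hu, ← e]
    simp only [map_smul, smul_apply, smul_eq_mul, this]
    ring
  · let γ : rbH o → ℝ := fun u =>
      g (G.ex o u) (fderiv ℝ (G.ex o) u a) (fderiv ℝ (G.ex o) u a)
    have hs := rb_smooth_ex G ho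
    have hγ : ContDiffAt ℝ ∞ γ 0 := by
      have b0 : ContDiff ℝ ∞ fun u : rbH o => (u : E n) := (rbH o).subtypeL.contDiff
      have b1 : ContDiffAt ℝ ∞ (fun u : rbH o => g (G.ex o u)) 0 :=
        ContDiffAt.comp (g := g) (f := fun u : rbH o => G.ex o u) 0
          (h.contDiffAt (G.ex_ne ho _)) (hs.comp b0).contDiffAt
      have b2 : ContDiff ℝ ∞ fun u : rbH o => fderiv ℝ (G.ex o) u a :=
        ((hs.fderiv_right (m := ∞) (by simp)).comp b0).clm_apply contDiff_const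
      exact (b1.clm_apply b2.contDiffAt).clm_apply b2.contDiffAt
    have hγ0 : γ 0 = g o a a := by
      show g (G.ex o 0) (fderiv ℝ (G.ex o) 0 a) (fderiv ℝ (G.ex o) 0 a) = _
      rw [G.ex_zero ho, (G.hasFDerivAt_ex_zero ho).fderiv, horL_apply, hor_of_nu a.2]
    refine Exists.elim (quadratic_of_ray hγ (c := fun u =>
      -1 / 3 * (rbB g o a a * rbB g o u u - rbB g o a u * rbB g o a u) - rbB g o a (k u) ^ 2)
      fun u hu => ?_) fun q hq => ?_
    swap
    · refine ⟨(-1 / 3 : ℝ) • (rbB g o a a • rbB g o - (rbB g o a).smulRight (rbB g o a)) - q,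
        fun u hu => ?_⟩
      simp only [sub_apply, smul_apply, smul_eq_mul, ContinuousLinearMap.smulRight_apply,
        ← hq u hu]
      ring
    · have hx := rb_OO ho hu
      obtain ⟨e1, e2⟩ := rb_K h KD hx u.2
      have hs := h.spd_pos hx
      have e := h.spd_sq (x := (o, (u : E n))) ho
      simp only at e1 e2 e
      have hv0 := h.nu_vel (x := (o, (u : E n))) ho
      have hv1 := h.vel_unit hx
      simp only at hv0 hv1
      set s := spd g (o, (u : E n)) with hsd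
      set v := vel g (o, (u : E n)) with hvd
      have hl := rb_lim (g o a a - g o v a ^ 2) (g o a (KD.K (o, u)) ^ 2) hs
      have e3 : s ^ 2 * (-1 / 3 * (g o a a - g o v a ^ 2) - g o a (KD.K (o, u)) ^ 2) =
          -1 / 3 * (rbB g o a a * rbB g o u u - rbB g o a u * rbB g o a u) -
            rbB g o a (k u) ^ 2 := by
        have e4 : g o a u = s * g o v a := by
          rw [e1, map_smul, h.symm _ _ _ ho, smul_eq_mul]
        simp only [rbB_apply, hk u hu, ← e, e4, map_smul, smul_eq_mul]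
        ring
      rw [e3] at hl
      refine hl.congr' ?_
      filter_upwards [Ioo_mem_nhdsGT (show (0 : ℝ) < π / 2 / s by positivity)] with t ht
      have ht' : t * s ∈ Ioo 0 (π / 2) := ⟨mul_pos ht.1 hs, (lt_div_iff₀ hs).1 ht.2⟩
      have e5 : ((t • u : rbH o) : E n) = (t * s) • v := by
        rw [Submodule.coe_smul, mul_smul, ← e1]
      have e6 : γ (t • u) = g (G.ex o (t • u : rbH o)) (fderiv ℝ (G.ex o) (t • u : rbH o) a)
          (fderiv ℝ (G.ex o) (t • u : rbH o) a) := rfl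
      rw [e6, hγ0, e5, rb_normal h hM ho hv0 hv1 ht', e2]
      ring

theorem rb_L (h : IsMetric g) {KD : KData g G} (hM : Model G KD) {o : E n} (ho : o ≠ 0) :
    ∃ L : E n →L[ℝ] E n, (∀ u w, g o (L u) (L w) = fsM n o u w) ∧ (∀ u, nu o (L u) = 0) ∧
      ∀ u, nu o u = 0 → fsM n o u u = 1 → KD.K (o, L u) = L (Complex.I • u) := by
  obtain ⟨J, h1, h2, h3⟩ := rb_J h hM ho
  let J₀ : rbH o →L[ℝ] rbH o :=
    (rbPr ho).comp ((ContinuousLinearMap.lsmul ℝ ℂ Complex.I).comp (rbH o).subtypeL)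
  have hJ : ∀ u : rbH o, (J₀ u : E n) = Complex.I • (u : E n) := fun u => by
    refine hor_of_nu ?_
    show nu o (Complex.I • (u : E n)) = 0
    rw [nu_smul, rb_mem.1 u.2, mul_zero]
  refine Exists.elim (rb_iso (B₀ := rbB (fsM n) o) (J₀ := J₀)
    (fun u w => isMetric_fsM.symm _ _ _ ho) (rbB_pos isMetric_fsM ho) (fun u w => ?_)
    (fun u => ?_) (fun u w => h.symm _ _ _ ho) (rbB_pos h ho) h2 h3 (rb_finrank ho))
    fun L ⟨h4, h5⟩ => ?_
  rotate_right
  · refine ⟨(rbH o).subtypeL.comp (L.comp (rbPr ho)), fun u w => ?_, fun u => (L (rbPr ho u)).2,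
      fun u hu hu' => ?_⟩
    · have := h4 (rbPr ho u) (rbPr ho w)
      rw [rbB_apply, rbB_apply, rbPr_coe, rbPr_coe, isMetric_fsM.hor_left ho,
        isMetric_fsM.hor_right ho] at this
      exact this
    · have a1 : g o (L (rbPr ho u)) (L (rbPr ho u)) = 1 := by
        have := h4 (rbPr ho u) (rbPr ho u)
        rwa [rbB_apply, rbB_apply, rbPr_coe, hor_of_nu hu, hu'] at this
      have a2 : L (rbPr ho u) ≠ 0 := by
        intro h0
        rw [h0] at a1
        simp at a1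
      have a3 := h1 _ a2
      rw [(h.unit_mem ho (L (rbPr ho u)).2 a1).2.1, one_smul, ← h5] at a3
      have a4 : J₀ (rbPr ho u) = rbPr ho (Complex.I • u) :=
        Subtype.ext (by rw [hJ, rbPr_coe, rbPr_coe, hor_smul])
      rw [a4] at a3
      exact a3.symm
  · have a1 : nu o (Complex.I • (u : E n)) = 0 := by rw [nu_smul, rb_mem.1 u.2, mul_zero]
    rw [rbB_apply, rbB_apply, hJ, hJ, rb_fs_hor ho a1, rb_fs_hor ho u.2, inner_smul_left,
      inner_smul_right]
    simp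
    ring
  · refine Subtype.ext ?_
    rw [hJ, hJ, smul_smul, Complex.I_mul_I]
    simp

theorem Bl.exists_chart (B : Bl g G) {KD : KData g G} (hM : Model G KD) {o : E n} (ho : o ≠ 0) :
    ∃ L : E n →L[ℝ] E n, (∀ u w, g o (L u) (L w) = fsM n o u w) ∧
      ∀ y, nu o y ≠ 0 → ∀ u w, g (chart G o o L y) (fderiv ℝ (chart G o o L) y u)
        (fderiv ℝ (chart G o o L) y w) = fsM n y u w := by
  have h := B.met
  obtain ⟨L, h1, h2, h3⟩ := rb_L h hM ho
  refine ⟨L, h1, ?_⟩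
  have hU : IsOpen {y : E n | nu o y ≠ 0} := isOpen_ne_fun (nuL o).continuous continuous_const
  have hs := rb_smooth_ex G ho
  have hl : ∀ y, nu o y ≠ 0 → ContDiffAt ℝ ∞ (lgF o) y := fun y hy =>
    (contDiffOn_lgF ho).contDiffAt (hU.mem_nhds hy)
  have hc : ∀ y, nu o y ≠ 0 → ContDiffAt ℝ ∞ (chart G o o L) y := fun y hy =>
    hs.contDiffAt.comp y (L.contDiff.contDiffAt.comp y (hl y hy))
  have hF : ∀ y, chart G o o L y ≠ 0 := fun y => G.ex_ne ho _
  have hne : ∀ y, nu o y ≠ 0 → y ≠ 0 := by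
    rintro y hy rfl
    exact hy (map_zero (nuL o))
  have hd : ∀ y, nu o y ≠ 0 → ∀ a, fderiv ℝ (chart G o o L) y a =
      fderiv ℝ (G.ex o) (L (lgF o y)) (L (fderiv ℝ (lgF o) y a)) := fun y hy a => by
    have := (hs.differentiable (by simp) (L (lgF o y))).hasFDerivAt.comp y
      (L.hasFDerivAt.comp y ((hl y hy).differentiableAt (by simp)).hasFDerivAt)
    exact congrArg (fun T => T a) this.fderiv
  have k1 : ∀ y, nu o y ≠ 0 → hor o y ≠ 0 → ∀ a, g (chart G o o L y)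
      (fderiv ℝ (chart G o o L) y a) (fderiv ℝ (chart G o o L) y a) = fsM n y a a := by
    intro y hy hy' a
    obtain ⟨v, t, a1, a2, a3, a4, a5⟩ := rb_model ho hy hy' a
    rw [hd y hy, chart, a4, map_smul, rb_normal h hM ho (h2 v) (by rw [h1, a2]) a3, h3 v a1 a2,
      h1, h1, h1, a5]
  have k2 : ∀ y, nu o y ≠ 0 → ∀ a, g (chart G o o L y)
      (fderiv ℝ (chart G o o L) y a) (fderiv ℝ (chart G o o L) y a) = fsM n y a a := by
    intro y hy a
    by_cases hy' : hor o y = 0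
    swap
    · exact k1 y hy hy' a
    obtain ⟨v, -, -, v0, v1, -⟩ := exists_ray (by have := B.two; omega) ho hy
    have v2 : v ≠ 0 := by
      rintro rfl
      exact ho (norm_eq_zero.1 (by rw [← v1, norm_zero]))
    have c1 : ContinuousAt (fun y => g (chart G o o L y) (fderiv ℝ (chart G o o L) y a)
        (fderiv ℝ (chart G o o L) y a) - fsM n y a a) y := by
      have b1 : ContinuousAt (fun y => g (chart G o o L y)) y :=
        ((h.contDiffAt (hF y)).comp y (hc y hy)).continuousAt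
      have b2 : ContinuousAt (fun y => fderiv ℝ (chart G o o L) y a) y :=
        (((hc y hy).fderiv_right (m := 0) (by simp)).continuousAt).clm_apply continuousAt_const
      have b3 := (isMetric_fsM.contDiffAt (hne y hy)).continuousAt
      exact ((b1.clm_apply b2).clm_apply b2).sub
        ((b3.clm_apply continuousAt_const).clm_apply continuousAt_const)
    have c2 : Tendsto (fun ε : ℝ => y + ε • v) (𝓝[>] 0) (𝓝 y) := by
      have : Continuous fun ε : ℝ => y + ε • v := by fun_prop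
      simpa using (this.tendsto 0).mono_left nhdsWithin_le_nhds
    have c3 := c1.tendsto.comp c2
    rw [← sub_eq_zero]
    refine tendsto_nhds_unique c3 (tendsto_const_nhds.congr' ?_)
    filter_upwards [self_mem_nhdsWithin] with ε hε
    have hε0 : ε ≠ 0 := ne_of_gt hε
    have d1 : nu o (ε • v) = 0 := by rw [rb_nu_rsmul, v0, mul_zero]
    have := k1 (y + ε • v) (by rwa [nu_add, d1, add_zero])
      (by rw [rb_hor_add, hy', zero_add, hor_of_nu d1]; exact smul_ne_zero hε0 v2) a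
    simp only [Function.comp, this, sub_self]
  intro y hy u w
  rw [← sub_eq_zero]
  refine rb_polar (f := fun u w => g (chart G o o L y) (fderiv ℝ (chart G o o L) y u)
    (fderiv ℝ (chart G o o L) y w) - fsM n y u w) (fun u w => ?_) (fun u v w => ?_)
    (fun u => by rw [k2 y hy, sub_self]) u w
  · rw [h.symm _ _ _ (hF y), isMetric_fsM.symm _ _ _ (hne y hy)]
  · simp only [map_add, add_apply]
    ring

end Pool.Agent.Work.MP_8c604c_gt
end
end

-- merged part: Pool.Agent.Work.MP_8c604c_gt.RigC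
section
/-!
Gluing the charts to a global isometry (see PLAN.md, section Rig).
-/

set_option maxSynthPendingDepth 3

open Set Filter Topology MeasureTheory
open scoped ContDiff

noncomputable section
namespace Pool.Agent.Work.MP_8c604c_gt

open Real
open scoped LinearAlgebra.Projectivization

variable {n : ℕ} {g : Met n} {G : Geo g}

theorem rigc_nu_iff {z u : E n} : nu z u ≠ 0 ↔ inner ℂ z u ≠ 0 := by
  rw [nu_def]
  refine ⟨fun h h0 => h (by rw [h0, zero_div]), fun h => div_ne_zero h ?_⟩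
  have hz : z ≠ 0 := fun h0 => h (by rw [h0, inner_zero_left])
  exact_mod_cast pow_ne_zero 2 (norm_ne_zero_iff.mpr hz)

theorem rigc_nu_symm {z u : E n} (h : nu z u ≠ 0) : nu u z ≠ 0 :=
  rigc_nu_iff.mpr fun h0 => rigc_nu_iff.mp h (inner_eq_zero_symm.mp h0)

theorem rigc_ne_right {z u : E n} (h : nu z u ≠ 0) : u ≠ 0 :=
  fun h0 => rigc_nu_iff.mp h (by rw [h0, inner_zero_right])

theorem rigc_open (o : E n) : IsOpen {y | nu o y ≠ 0} :=
  isOpen_ne_fun (nuL o).continuous continuous_const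

theorem rigc_dense {o : E n} (ho : o ≠ 0) : Dense {y | nu o y ≠ 0} := by
  intro y
  by_cases hy : nu o y = 0
  · have h1 : Tendsto (fun ε : ℝ => y + (ε : ℂ) • o) (𝓝[>] 0) (𝓝 y) := by
      have h2 : Continuous fun ε : ℝ => y + (ε : ℂ) • o := by fun_prop
      simpa using (h2.tendsto 0).mono_left nhdsWithin_le_nhds
    refine mem_closure_of_tendsto h1 ?_
    filter_upwards [self_mem_nhdsWithin] with ε hε
    rw [nu_add, hy, zero_add, nu_smul, nu_self ho, mul_one]
    exact_mod_cast (ne_of_gt hε)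
  · exact subset_closure hy

theorem rigc_nu_ray (o a b : E n) (s t : ℝ) :
    nu o (s • a + t • b) = (s : ℂ) * nu o a + (t : ℂ) * nu o b := by
  rw [← nuL_apply, map_add, map_smul, map_smul, Complex.real_smul, Complex.real_smul]
  rfl

theorem rigc_chart_smooth (G : Geo g) {o p : E n} (ho : o ≠ 0) (hp : p ≠ 0)
    (L : E n →L[ℝ] E n) : ContDiffOn ℝ ∞ (chart G o p L) {y | nu o y ≠ 0} := by
  have h1 : ContDiff ℝ ∞ (G.ex p) := by
    rw [← contDiffOn_univ]
    exact G.contDiffOn_ex.comp (contDiff_const.prodMk contDiff_id).contDiffOn fun _ _ => hp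
  exact h1.comp_contDiffOn (L.contDiff.comp_contDiffOn (contDiffOn_lgF ho))

theorem rigc_chart_smul (G : Geo g) (o p : E n) (L : E n →L[ℝ] E n) {c : ℂ} (hc : c ≠ 0)
    (y : E n) : chart G o p L (c • y) = chart G o p L y := by
  rw [chart, chart, lgF_smul hc]

theorem rigc_ray (hg : IsMetric g) {o : E n} {F : E n → E n}
    (hF : ContDiffOn ℝ ∞ F {y | nu o y ≠ 0}) (hF0 : ∀ y, F y ≠ 0)
    (hiso : ∀ y, nu o y ≠ 0 → ∀ u w, g (F y) (fderiv ℝ F y u) (fderiv ℝ F y w) = fsM n y u w)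
    {o' h : E n} (ho' : o' ≠ 0) (h0 : nu o' h = 0) (h1 : ‖h‖ = ‖o'‖) {t : ℝ}
    (ht : t ∈ Ico 0 (π / 2)) (hs : ∀ s ∈ Icc 0 t, nu o (cos s • o' + sin s • h) ≠ 0) :
    ∃ l : ℂ, l ≠ 0 ∧ F (cos t • o' + sin t • h) =
      l • chart G o' (F o') (fderiv ℝ F o') (cos t • o' + sin t • h) := by
  set c : ℝ → E n := fun s => cos s • o' + sin s • h with hc
  have hcs : ContDiff ℝ ∞ c := (contDiff_cos.smul contDiff_const).add
    (contDiff_sin.smul contDiff_const)
  have hcd : ∀ s, HasDerivAt c (-sin s • o' + cos s • h) s := fun s =>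
    ((hasDerivAt_cos s).smul_const o').add ((hasDerivAt_sin s).smul_const h)
  have hder : deriv c = fun s => -sin s • o' + cos s • h := funext fun s => (hcd s).deriv
  have hS : IsOpen (c ⁻¹' {y | nu o y ≠ 0}) := (rigc_open o).preimage hcs.continuous
  obtain ⟨a, a', ha, ha'⟩ := mem_nhds_iff_exists_Ioo_subset.mp
    (hS.mem_nhds (hs 0 ⟨le_rfl, ht.1⟩))
  obtain ⟨b', b, hb, hb'⟩ := mem_nhds_iff_exists_Ioo_subset.mp
    (hS.mem_nhds (hs t ⟨ht.1, le_rfl⟩))
  have hab : ∀ s ∈ Ioo a b, nu o (c s) ≠ 0 := by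
    intro s hs'
    rcases lt_or_ge s 0 with h2 | h2
    · exact ha' ⟨hs'.1, h2.trans ha.2⟩
    · rcases le_or_gt s t with h3 | h3
      · exact hs s ⟨h2, h3⟩
      · exact hb' ⟨hb.1.trans h3, hs'.2⟩
  obtain ⟨l, hl, e⟩ := G.uniq (F ∘ c) a b 0 ⟨ha.1, ht.1.trans_lt hb.2⟩
    (hF.comp hcs.contDiffOn hab) (fun s _ => hF0 _)
    (fun s hs' η => el_map hg isMetric_fsM (rigc_open o) (fun y hy => rigc_ne_right hy) hF
      (fun y _ => hF0 y) hiso hcs.contDiffAt (hab s hs')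
      (fun η => by rw [hder]; exact fs_el ho' h0 h1 s η) η) t ⟨ha.1.trans_le ht.1, hb.2⟩
  refine ⟨l, hl, ?_⟩
  have hc0 : c 0 = o' := by simp [hc]
  have hd0 : deriv (F ∘ c) 0 = fderiv ℝ F o' h := by
    have h2 : DifferentiableAt ℝ F (c 0) :=
      (hF.contDiffAt ((rigc_open o).mem_nhds (hs 0 ⟨le_rfl, ht.1⟩))).differentiableAt (by simp)
    rw [(h2.hasFDerivAt.comp_hasDerivAt 0 (hcd 0)).deriv, hc0]
    simp
  rw [hd0, sub_zero, Function.comp_apply, Function.comp_apply, hc0,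
    ← G.ex_real_smul (hF0 _)] at e
  rw [chart, lgF_ray ho' h0 h1 (by rw [abs_of_nonneg ht.1]; exact ht.2), map_smul]
  exact e

theorem rigc_good {A : ℂ} (hA : A ≠ 0) (Bh : ℂ) : ∀ᶠ ε : ℝ in 𝓝[>] 0, ∀ s ∈ Ico 0 (π / 2),
    ((cos s : ℝ) : ℂ) * A + ((sin s : ℝ) : ℂ) * (Complex.exp (ε * Complex.I) * Bh) ≠ 0 := by
  have hcos : ∀ s ∈ Ico 0 (π / 2), cos s ≠ 0 := fun s hs =>
    (cos_pos_of_mem_Ioo ⟨by linarith [hs.1, pi_pos], hs.2⟩).ne'
  by_cases hB : Bh = 0
  · refine Eventually.of_forall fun ε s hs => ?_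
    rw [hB, mul_zero, mul_zero, add_zero]
    exact mul_ne_zero (by exact_mod_cast hcos s hs) hA
  have h1 : ∀ᶠ ε in 𝓝[>] (0 : ℝ), (A.im * Bh.re - A.re * Bh.im) * cos ε -
      (A.re * Bh.re + A.im * Bh.im) * sin ε ≠ 0 := by
    by_cases h2 : A.im * Bh.re - A.re * Bh.im = 0
    · have h3 : A.re * Bh.re + A.im * Bh.im ≠ 0 := by
        intro h3
        have h4 : Complex.normSq A * Complex.normSq Bh = 0 := by
          rw [Complex.normSq_apply, Complex.normSq_apply]
          linear_combination (A.im * Bh.re - A.re * Bh.im) * h2 + (A.re * Bh.re + A.im * Bh.im) * h3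
        simp [hA, hB] at h4
      filter_upwards [Ioo_mem_nhdsGT pi_pos] with ε hε
      rw [h2, zero_mul, zero_sub, neg_ne_zero]
      exact mul_ne_zero h3 (sin_pos_of_pos_of_lt_pi hε.1 hε.2).ne'
    · have h3 : Continuous fun ε : ℝ => (A.im * Bh.re - A.re * Bh.im) * cos ε -
        (A.re * Bh.re + A.im * Bh.im) * sin ε := by fun_prop
      exact (h3.continuousAt.eventually_ne (by simpa using h2)).filter_mono nhdsWithin_le_nhds
  filter_upwards [h1] with ε hε s hs h0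
  have h2 := congrArg Complex.re h0
  have h3 := congrArg Complex.im h0
  simp only [Complex.add_re, Complex.add_im, Complex.mul_re, Complex.mul_im, Complex.ofReal_re,
    Complex.ofReal_im, Complex.exp_ofReal_mul_I_re, Complex.exp_ofReal_mul_I_im, Complex.zero_re,
    Complex.zero_im] at h2 h3
  refine mul_ne_zero (hcos s hs) hε ?_
  linear_combination (cos ε * Bh.re - sin ε * Bh.im) * h3 - (cos ε * Bh.im + sin ε * Bh.re) * h2

theorem rigc_agree (hn : 1 ≤ n) (hg : IsMetric g) {o : E n} {F : E n → E n}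
    (hF : ContDiffOn ℝ ∞ F {y | nu o y ≠ 0}) (hF0 : ∀ y, F y ≠ 0)
    (hFs : ∀ c : ℂ, c ≠ 0 → ∀ y, F (c • y) = F y)
    (hiso : ∀ y, nu o y ≠ 0 → ∀ u w, g (F y) (fderiv ℝ F y u) (fderiv ℝ F y w) = fsM n y u w)
    {o' y : E n} (ho' : nu o o' ≠ 0) (hy : nu o y ≠ 0) (hy' : nu o' y ≠ 0) :
    ∃ l : ℂ, l ≠ 0 ∧ chart G o' (F o') (fderiv ℝ F o') y = l • F y := by
  have ho0 := rigc_ne_right ho'
  obtain ⟨h, t, c, h0, h1, ht, hc, rfl⟩ := exists_ray hn ho0 hy'
  rw [nu_smul] at hy hy'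
  rw [hFs c hc, rigc_chart_smul G _ _ _ hc]
  set F' := chart G o' (F o') (fderiv ℝ F o') with hF'
  have hne : ∀ y, F' y ≠ 0 := fun y => G.ex_ne (hF0 _) _
  have hten : Tendsto (fun ε : ℝ => cos t • o' + sin t • Complex.exp (ε * Complex.I) • h) (𝓝[>] 0)
      (𝓝 (cos t • o' + sin t • h)) := by
    have h2 : Continuous fun ε : ℝ => cos t • o' + sin t • Complex.exp (ε * Complex.I) • h := by
      fun_prop
    simpa using (h2.tendsto 0).mono_left nhdsWithin_le_nhds
  have c1 : ContinuousAt F (cos t • o' + sin t • h) :=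
    hF.continuousOn.continuousAt ((rigc_open o).mem_nhds (right_ne_zero_of_mul hy))
  have c2 : ContinuousAt F' (cos t • o' + sin t • h) :=
    (rigc_chart_smooth G ho0 (hF0 _) _).continuousOn.continuousAt
      ((rigc_open o').mem_nhds (right_ne_zero_of_mul hy'))
  have c3 : ContinuousAt (fun y => hor (F y) (F' y)) (cos t • o' + sin t • h) :=
    ((contDiffOn_horL.continuousOn.continuousAt
      (isOpen_compl_singleton.mem_nhds (hF0 _))).comp c1).clm_apply c2
  have h2 : hor (F (cos t • o' + sin t • h)) (F' (cos t • o' + sin t • h)) = 0 := by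
    refine tendsto_nhds_unique (c3.tendsto.comp hten) (tendsto_const_nhds.congr' ?_)
    filter_upwards [rigc_good ho' (nu o h)] with ε hε
    obtain ⟨l, hl, e⟩ := rigc_ray (G := G) hg hF hF0 hiso (h := Complex.exp (ε * Complex.I) • h)
      ho0 (by rw [nu_smul, h0, mul_zero])
      (by rw [norm_smul, Complex.norm_exp_ofReal_mul_I, one_mul, h1]) ht fun s hs => by
        rw [rigc_nu_ray, nu_smul]
        exact hε s ⟨hs.1, hs.2.trans_lt ht.2⟩
    refine ((hor_eq_zero_iff (hF0 _) _).mpr ⟨l⁻¹, ?_⟩).symm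
    rw [e, smul_smul, inv_mul_cancel₀ hl, one_smul]
  obtain ⟨l, e⟩ := (hor_eq_zero_iff (hF0 _) _).mp h2
  refine ⟨l, ?_, e⟩
  rintro rfl
  exact hne _ (e.trans (zero_smul _ _))

theorem rigc_line_iso (hg : IsMetric g) {F F' : E n → E n} {W : Set (E n)} (hW : IsOpen W)
    (hF : ContDiffOn ℝ ∞ F W) (hF' : ContDiffOn ℝ ∞ F' W) (h0 : ∀ y ∈ W, F y ≠ 0)
    (hl : ∀ y ∈ W, ∃ l : ℂ, l ≠ 0 ∧ F' y = l • F y) {y : E n} (hy : y ∈ W) (u w : E n) :
    g (F' y) (fderiv ℝ F' y u) (fderiv ℝ F' y w) = g (F y) (fderiv ℝ F y u) (fderiv ℝ F y w) := by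
  have d1 : DifferentiableAt ℝ F y := (hF.contDiffAt (hW.mem_nhds hy)).differentiableAt (by simp)
  have d2 : DifferentiableAt ℝ F' y := (hF'.contDiffAt (hW.mem_nhds hy)).differentiableAt (by simp)
  have d3 : DifferentiableAt ℝ (fun z => nu (F z) (F' z)) y :=
    (((contDiffOn_nuL.contDiffAt (isOpen_compl_singleton.mem_nhds (h0 y hy))).differentiableAt
      (by simp)).comp y d1).clm_apply d2
  have he : F' =ᶠ[𝓝 y] fun z => nu (F z) (F' z) • F z := by
    filter_upwards [hW.mem_nhds hy] with z hz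
    obtain ⟨l, -, e⟩ := hl z hz
    rw [e, nu_smul, nu_self (h0 z hz), mul_one]
  have h1 := ((d3.hasFDerivAt.smul d1.hasFDerivAt).congr_of_eventuallyEq he).fderiv
  obtain ⟨l, hl0, e⟩ := hl y hy
  have h2 : nu (F y) (F' y) = l := by rw [e, nu_smul, nu_self (h0 y hy), mul_one]
  have h3 : ∀ c : ℂ, c • F y = (c / l) • l • F y := fun c => by
    rw [smul_smul, div_mul_cancel₀ _ hl0]
  have h4 : l • F y ≠ 0 := smul_ne_zero hl0 (h0 y hy)
  rw [h1, h2, e]
  simp only [add_apply, smul_apply,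
    ContinuousLinearMap.smulRight_apply, map_add]
  rw [h3 (fderiv ℝ _ y u), h3 (fderiv ℝ _ y w), hg.vert _ _ _ h4, hg.vert _ _ _ h4,
    hg.vert' _ _ h4, hg.inv _ _ _ _ hl0 (h0 y hy)]
  ring

theorem rigc_L_inj (hg : IsMetric g) {o p : E n} (ho : o ≠ 0) (hp : p ≠ 0) {L : E n →L[ℝ] E n}
    (hL : ∀ u w, g p (L u) (L w) = fsM n o u w) {d : E n} (hd : nu o d = 0)
    (h : hor p (L d) = 0) : d = 0 := by
  have h1 := hL d d
  rw [← hg.hor_left hp, h, map_zero, zero_apply] at h1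
  rw [← hor_of_nu hd]
  exact isMetric_fsM.hor_eq_zero ho h1.symm

theorem rigc_inj (B : Bl g G) {o p : E n} (ho : o ≠ 0) (hp : p ≠ 0) {L : E n →L[ℝ] E n}
    (hL : ∀ u w, g p (L u) (L w) = fsM n o u w) {y y' : E n} (hy : nu o y ≠ 0)
    (hy' : nu o y' ≠ 0) {c : ℂ} (e : chart G o p L y = c • chart G o p L y') :
    ∃ a : ℂ, y = a • y' := by
  have hn : 1 ≤ n := le_trans one_le_two B.two
  have h1 := (B.ex_inj hp (by rw [hL]; exact (lgF_norm ho).2) (by rw [hL]; exact (lgF_norm ho).2)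
    e).1
  have h2 : lgF o y = lgF o y' := by
    refine sub_eq_zero.mp (rigc_L_inj B.met ho hp hL ?_ ?_)
    · rw [← nuL_apply, map_sub, nuL_apply, nuL_apply, (lgF_norm ho).1, (lgF_norm ho).1, sub_zero]
    · rw [map_sub, ← horL_apply, map_sub, horL_apply, horL_apply, h1, sub_self]
  obtain ⟨h, t, a, h0, hh, ht, ha, rfl⟩ := exists_ray hn ho hy
  obtain ⟨h', t', a', h0', hh', ht', ha', rfl⟩ := exists_ray hn ho hy'
  rw [lgF_smul ha, lgF_smul ha', lgF_ray ho h0 hh (by rw [abs_of_nonneg ht.1]; exact ht.2),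
    lgF_ray ho h0' hh' (by rw [abs_of_nonneg ht'.1]; exact ht'.2)] at h2
  have h3 : t = t' := by
    have h4 := congrArg norm h2
    rw [norm_smul, norm_smul, hh, hh', norm_of_nonneg ht.1, norm_of_nonneg ht'.1] at h4
    exact mul_right_cancel₀ (norm_ne_zero_iff.mpr ho) h4
  subst h3
  refine ⟨a / a', ?_⟩
  rw [smul_smul, div_mul_cancel₀ _ ha']
  by_cases h4 : t = 0
  · simp [h4]
  · rw [smul_right_injective _ h4 h2]

theorem rigc_surj (B : Bl g G) {o p : E n} (ho : o ≠ 0) {L : E n →L[ℝ] E n}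
    (hL : ∀ u w, g p (L u) (L w) = fsM n o u w) {z : E n} (hz : (p, z) ∈ DD g) :
    ∃ (y : E n) (c : ℂ), nu o y ≠ 0 ∧ z = c • chart G o p L y := by
  have hn : 1 ≤ n := le_trans one_le_two B.two
  have hp : p ≠ 0 := hz.1
  obtain ⟨u, c, -, hu, e⟩ := B.exists_ex hz
  set T : E n →L[ℝ] E n := (horL p).comp (L.comp (horL o)) +
    ((ContinuousLinearMap.lsmul ℝ ℂ).flip p).comp (nuL o) with hT
  have hTa : ∀ a, T a = hor p (L (hor o a)) + nu o a • p := fun a => rfl
  have hnu : ∀ a, nu p (T a) = nu o a := fun a => by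
    rw [hTa, nu_add, nu_hor hp, zero_add, nu_smul, nu_self hp, mul_one]
  have hinj : Function.Injective (T : E n →ₗ[ℝ] E n) := by
    rw [injective_iff_map_eq_zero]
    intro a ha
    change T a = 0 at ha
    have h1 := hnu a
    rw [ha, ← nuL_apply, map_zero] at h1
    rw [hTa, ← h1, zero_smul, add_zero, hor_of_nu h1.symm] at ha
    exact rigc_L_inj B.met ho hp hL h1.symm ha
  obtain ⟨a, ha⟩ := LinearMap.injective_iff_surjective.mp hinj (hor p u)
  change T a = hor p u at ha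
  have h1 : nu o a = 0 := by rw [← hnu, ha, nu_hor hp]
  rw [hTa, h1, zero_smul, add_zero, hor_of_nu h1] at ha
  have hon : 0 < ‖o‖ := norm_pos_iff.mpr ho
  have h2 : ‖a‖ / ‖o‖ < π / 2 := by
    rw [← B.met.hor_left hp, ← B.met.hor_right hp, ← ha, B.met.hor_left hp, B.met.hor_right hp,
      hL, fsM_eq, hor_of_nu h1, real_inner_self_eq_norm_sq, ← div_eq_inv_mul, ← div_pow,
      sqrt_sq (by positivity)] at hu
    exact hu
  obtain ⟨h, h0, hh, hth⟩ : ∃ h : E n, nu o h = 0 ∧ ‖h‖ = ‖o‖ ∧ (‖a‖ / ‖o‖) • h = a := by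
    by_cases ha0 : a = 0
    · obtain ⟨h, -, -, h0, hh, -⟩ := exists_ray hn ho (y := o)
        (by rw [nu_self ho]; exact one_ne_zero)
      exact ⟨h, h0, hh, by simp [ha0]⟩
    · have han : 0 < ‖a‖ := norm_pos_iff.mpr ha0
      refine ⟨(‖o‖ / ‖a‖) • a, ?_, ?_, ?_⟩
      · rw [← nuL_apply, map_smul, nuL_apply, h1, smul_zero]
      · rw [norm_smul, norm_of_nonneg (by positivity), div_mul_cancel₀ _ han.ne']
      · rw [smul_smul, div_mul_div_cancel₀ hon.ne', div_self han.ne', one_smul]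
  have h3 : 0 ≤ ‖a‖ / ‖o‖ := by positivity
  refine ⟨cos (‖a‖ / ‖o‖) • o + sin (‖a‖ / ‖o‖) • h, c, ?_, ?_⟩
  · rw [rigc_nu_ray, h0, nu_self ho, mul_zero, add_zero, mul_one]
    exact_mod_cast (cos_pos_of_mem_Ioo ⟨by linarith [pi_pos], h2⟩).ne'
  · rw [chart, lgF_ray ho h0 hh (by rwa [abs_of_nonneg h3]), hth, ← G.ex_hor hp (L a), ha,
      G.ex_hor hp]
    exact e

theorem rigc_dd_near (hg : IsMetric g) {z : E n} (hz : z ≠ 0) :
    ∀ᶠ w in 𝓝 z, dd g w z < π / 4 := by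
  have h1 : IsOpen {p : VV n | p.1 ≠ 0 ∧ p.2 ≠ 0} :=
    (isOpen_ne_fun continuous_fst continuous_const).inter
      (isOpen_ne_fun continuous_snd continuous_const)
  have h2 : ContinuousAt (fun w => dd g w z) z :=
    ContinuousAt.comp (f := fun w : E n => ((w, z) : VV n))
      (hg.continuousOn_dd.continuousAt (h1.mem_nhds ⟨hz, hz⟩))
      (continuous_id.prodMk continuous_const).continuousAt
  refine h2.eventually_lt continuousAt_const ?_
  rw [hg.dd_self hz]
  positivity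

theorem Bl.exists_isometry (B : Bl g G) {o : E n} (ho : o ≠ 0) {L : E n →L[ℝ] E n}
    (hL : ∀ u w, g o (L u) (L w) = fsM n o u w)
    (hiso : ∀ y, nu o y ≠ 0 → ∀ u w, g (chart G o o L y) (fderiv ℝ (chart G o o L) y u)
      (fderiv ℝ (chart G o o L) y w) = fsM n y u w) :
    ∃ Ψ : ℙ ℂ (E n) → ℙ ℂ (E n), Function.Bijective Ψ ∧ PullsBack g Ψ 1 := by
  have hn : 1 ≤ n := le_trans one_le_two B.two
  have hg := B.met
  set ch : E n → E n → E n := fun o' =>
    chart G o' (chart G o o L o') (fderiv ℝ (chart G o o L) o') with hch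
  have hne : ∀ o' y, ch o' y ≠ 0 := fun o' y => G.ex_ne (G.ex_ne ho _) _
  have hsm : ∀ o', nu o o' ≠ 0 → ContDiffOn ℝ ∞ (ch o') {y | nu o' y ≠ 0} := fun o' ho' =>
    rigc_chart_smooth G (rigc_ne_right ho') (G.ex_ne ho _) _
  have hag : ∀ o', nu o o' ≠ 0 → ∀ y, nu o y ≠ 0 → nu o' y ≠ 0 →
      ∃ l : ℂ, l ≠ 0 ∧ ch o' y = l • chart G o o L y := fun o' ho' y hy hy' =>
    rigc_agree hn hg (rigc_chart_smooth G ho ho L) (fun y => G.ex_ne ho _)
      (fun c hc y => rigc_chart_smul G o o L hc y) hiso ho' hy hy'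
  have hag2 : ∀ o', nu o o' ≠ 0 → ∀ o'', nu o o'' ≠ 0 → ∀ y, nu o' y ≠ 0 → nu o'' y ≠ 0 →
      ∃ l : ℂ, ch o' y = l • ch o'' y := by
    intro o' ho' o'' ho'' y hy' hy''
    have hW : IsOpen ({y | nu o' y ≠ 0} ∩ {y | nu o'' y ≠ 0}) := (rigc_open o').inter (rigc_open o'')
    have h1 : EqOn (fun y => hor (ch o'' y) (ch o' y)) (fun _ => 0)
        ({y | nu o' y ≠ 0} ∩ {y | nu o'' y ≠ 0}) := by
      refine EqOn.of_subset_closure ?_ ?_ continuousOn_const inter_subset_left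
        ((rigc_dense ho).open_subset_closure_inter hW)
      · intro z hz
        obtain ⟨l', -, e'⟩ := hag o' ho' z hz.2 hz.1.1
        obtain ⟨l'', hl'', e''⟩ := hag o'' ho'' z hz.2 hz.1.2
        refine (hor_eq_zero_iff (hne _ _) _).mpr ⟨l' / l'', ?_⟩
        rw [e', e'', smul_smul, div_mul_cancel₀ _ hl'']
      · exact (contDiffOn_horL.continuousOn.comp ((hsm o'' ho'').continuousOn.mono
          inter_subset_right) fun z _ => hne _ _).clm_apply
          ((hsm o' ho').continuousOn.mono inter_subset_left)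
    exact (hor_eq_zero_iff (hne _ _) _).mp (h1 ⟨hy', hy''⟩)
  have hsel : ∀ y : E n, y ≠ 0 → ∃ o', nu o o' ≠ 0 ∧ nu o' y ≠ 0 := by
    intro y hy
    obtain ⟨o', h1, h2⟩ := (rigc_dense ho).inter_open_nonempty _ (rigc_open y)
      ⟨y, by rw [mem_ofPred_eq, nu_self hy]; exact one_ne_zero⟩
    exact ⟨o', h2, rigc_nu_symm h1⟩
  choose sel hsel1 hsel2 using fun q : ℙ ℂ (E n) => hsel q.rep q.rep_nonzero
  set Ψ : ℙ ℂ (E n) → ℙ ℂ (E n) := fun q => Projectivization.mk ℂ (ch (sel q) q.rep) (hne _ _)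
    with hΨ
  have key : ∀ o', nu o o' ≠ 0 → ∀ y (hy : y ≠ 0), nu o' y ≠ 0 →
      Ψ (Projectivization.mk ℂ y hy) = Projectivization.mk ℂ (ch o' y) (hne _ _) := by
    intro o' ho' y hy hy'
    obtain ⟨a, ha⟩ := Projectivization.exists_smul_eq_mk_rep ℂ y hy
    have h1 := hsel2 (Projectivization.mk ℂ y hy)
    rw [hΨ, Projectivization.mk_eq_mk_iff']
    rw [← ha, Units.smul_def, nu_smul] at h1
    obtain ⟨l, hl⟩ := hag2 _ (hsel1 _) o' ho' y (right_ne_zero_of_mul h1) hy'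
    refine ⟨l, ?_⟩
    rw [← hl, ← ha, Units.smul_def]
    exact (rigc_chart_smul G _ _ _ a.ne_zero y).symm
  refine ⟨Ψ, ⟨fun q₁ q₂ hq => ?_, ?_⟩, fun z₀ hz₀ => ?_⟩
  · obtain ⟨o', ⟨h1, h2⟩, h3⟩ := ((rigc_dense ho).inter_of_isOpen_left (rigc_dense q₁.rep_nonzero)
      (rigc_open o)).inter_open_nonempty _ (rigc_open q₂.rep)
      ⟨q₂.rep, by rw [mem_ofPred_eq, nu_self q₂.rep_nonzero]; exact one_ne_zero⟩ |>.imp
      fun _ h => And.intro h.2 h.1
    rw [← q₁.mk_rep, ← q₂.mk_rep] at hq ⊢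
    rw [key o' h1 _ _ (rigc_nu_symm h2), key o' h1 _ _ (rigc_nu_symm h3),
      Projectivization.mk_eq_mk_iff'] at hq
    obtain ⟨c, hc⟩ := hq
    obtain ⟨a, ha⟩ := rigc_inj B (rigc_ne_right h1) (G.ex_ne ho _) (hiso o' h1) (rigc_nu_symm h2)
      (rigc_nu_symm h3) hc.symm
    exact (Projectivization.mk_eq_mk_iff' ℂ _ _ _ _).mpr ⟨a, ha.symm⟩
  · set I : Set (E n) := {z | ∃ hz : z ≠ 0, Projectivization.mk ℂ z hz ∈ range Ψ} with hI
    have hA : ∀ o', nu o o' ≠ 0 → ∀ z, z ≠ 0 → dd g (chart G o o L o') z < π / 2 → z ∈ I := by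
      intro o' ho' z hz hd
      obtain ⟨y, c, hy, hc⟩ := rigc_surj B (rigc_ne_right ho') (hiso o' ho')
        (show (chart G o o L o', z) ∈ DD g from ⟨G.ex_ne ho _, hz, hd⟩)
      refine ⟨hz, Projectivization.mk ℂ y (rigc_ne_right hy), ?_⟩
      rw [key o' ho' y _ hy, eq_comm, Projectivization.mk_eq_mk_iff']
      exact ⟨c, hc.symm⟩
    have hD : ∀ z' ∈ I, ∀ z, z ≠ 0 → dd g z' z < π / 4 → z ∈ I := by
      rintro z' ⟨hz', q, hq⟩ z hz hd
      rw [hΨ, Projectivization.mk_eq_mk_iff'] at hq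
      obtain ⟨c, hc⟩ := hq
      have hc0 : c ≠ 0 := by
        rintro rfl
        exact hne _ _ (hc.symm.trans (zero_smul _ _))
      have h1 : ContinuousAt (ch (sel q)) q.rep :=
        (hsm _ (hsel1 q)).continuousOn.continuousAt ((rigc_open _).mem_nhds (hsel2 q))
      have h2 : ∀ᶠ w in 𝓝 q.rep, dd g (ch (sel q) w) (ch (sel q) q.rep) < π / 4 :=
        h1.eventually (rigc_dd_near hg (hne _ _))
      obtain ⟨o', ⟨h3, h4⟩, h5⟩ := mem_closure_iff_nhds.mp (rigc_dense ho q.rep) _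
        (h2.and ((rigc_open _).mem_nhds (hsel2 q)))
      obtain ⟨l, hl, e⟩ := hag _ (hsel1 q) o' h5 h4
      refine hA o' h5 z hz ?_
      rw [e, hg.dd_smul_left hl, ← hc, dd_smul_right hc0] at h3
      have h6 := hg.dd_triangle (G.ex_ne ho (L (lgF o o'))) hz' hz
      change dd g (chart G o o L o') z ≤ dd g (chart G o o L o') z' + _ at h6
      linarith
    have hrank : 1 < Module.rank ℝ (E n) := by
      rw [← Module.finrank_eq_rank, finrank_E]
      exact_mod_cast (by omega : 1 < 2 * n + 2)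
    have hsub : ({0}ᶜ : Set (E n)) ⊆ I := by
      refine (isConnected_compl_singleton_of_one_lt_rank hrank 0).isPreconnected
        |>.subset_of_closure_inter_subset ?_ ?_ ?_
      · rw [isOpen_iff_mem_nhds]
        intro z' hz'
        filter_upwards [rigc_dd_near hg hz'.1, isOpen_compl_singleton.mem_nhds hz'.1] with z h1 h2
        exact hD z' hz' z h2 (by rwa [hg.dd_symm hz'.1 h2])
      · exact ⟨_, hne (sel (Projectivization.mk ℂ o ho)) _, hne _ _, _, rfl⟩
      · rintro z ⟨h1, h2⟩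
        obtain ⟨z', h3, h4⟩ := mem_closure_iff_nhds.mp h1 _ (rigc_dd_near hg h2)
        exact hD z' h4 z h2 h3
    intro q
    obtain ⟨_, h⟩ := hsub q.rep_nonzero
    rwa [q.mk_rep] at h
  · obtain ⟨o', h1, h2⟩ := hsel z₀ hz₀
    refine ⟨{y | nu o' y ≠ 0}, rigc_open o', h2, ch o', hsm o' h1, fun z hz =>
      ⟨rigc_ne_right hz, hne _ _, key o' h1 z _ hz, fun u w => ?_⟩⟩
    rw [one_mul, ← fsM_apply (rigc_ne_right hz)]
    have h3 : EqOn (fun y => g (ch o' y) (fderiv ℝ (ch o') y u) (fderiv ℝ (ch o') y w))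
        (fun y => fsM n y u w) {y | nu o' y ≠ 0} := by
      refine EqOn.of_subset_closure ?_ ?_ ?_ inter_subset_left
        ((rigc_dense ho).open_subset_closure_inter (rigc_open o'))
      · intro y hy
        exact (rigc_line_iso hg ((rigc_open o').inter (rigc_open o))
          ((rigc_chart_smooth G ho ho L).mono inter_subset_right)
          ((hsm o' h1).mono inter_subset_left) (fun y _ => G.ex_ne ho _)
          (fun y hy => hag o' h1 y hy.2 hy.1) hy u w).trans (hiso y hy.2 u w)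
      · have h4 := (hsm o' h1).continuousOn_fderiv_of_isOpen (rigc_open o') (by simp)
        exact ((hg.smooth.continuousOn.comp (hsm o' h1).continuousOn fun y _ => hne _ _).clm_apply
          (h4.clm_apply continuousOn_const)).clm_apply (h4.clm_apply continuousOn_const)
      · exact ((isMetric_fsM.smooth.continuousOn.mono fun y hy => rigc_ne_right hy).clm_apply
          continuousOn_const).clm_apply continuousOn_const
    exact h3 hz

end Pool.Agent.Work.MP_8c604c_gt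
end
end

-- merged part: Pool.Agent.Work.MP_8c604c_gt.Main
section
/-!
Assembly.
-/

set_option maxSynthPendingDepth 3

open Set Filter Topology MeasureTheory
open scoped ContDiff

noncomputable section
namespace Pool.Agent.Work.MP_8c604c_gt

open Real
open scoped LinearAlgebra.Projectivization

variable {n : ℕ} {g : Met n} {G : Geo g}

theorem Bl.vol_le (B : Bl g G) : vol g ≤ vol (fsM n) := by
  have hn : 1 ≤ n := le_trans one_le_two B.two
  obtain ⟨D, hD, h2⟩ := B.exists_tdata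
  obtain ⟨D₀, hD₀, h2₀⟩ := exists_fsData hn
  obtain ⟨c, hc, hv⟩ := exists_nvol hn
  obtain ⟨κ, κB, dκ, e⟩ := D.main hn B.met.adm
  obtain ⟨κ₀, κB₀, dκ₀, e₀⟩ := D₀.main hn B.met.adm
  rw [II_x0_indep _ κB₀ κB dκ₀ dκ, ← e, h2₀] at e₀
  have b₀ : Om.one1 D₀.α D₀.α_smooth ∈ (actB n).Basic := one1_basic _ D₀.α_act D₀.α_hor
  rw [II_indep B.met.adm isMetric_fsM.adm (mul_mem b₀ (pow_mem ((actB n).d_mem b₀) _))] at e₀
  have e1 : Om.one1 (U := UO n) D₀.α D₀.α_smooth = Om.one1 (al (fsM n)) isMetric_fsM.contDiffOn_al := by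
    congr 1
  have e2 : Om.one1 (U := UO n) D.α D.α_smooth = Om.one1 (al g) B.met.contDiffOn_al := by
    congr 1
  have h0 := abs_nonneg (II B.met.adm (Om.one1 D.α D.α_smooth *
    Om.d (Om.one1 D.α D.α_smooth) ^ (2 * n - 1)))
  rw [e1, hv _ isMetric_fsM, e2, hv _ B.met] at e₀
  rw [e2, hv _ B.met] at h0
  have h3 : (2 : ℝ) ^ (2 * n) * (c * vol g) ≤ |D.δ| ^ (2 * n) * (c * vol g) :=
    mul_le_mul_of_nonneg_right (pow_le_pow_left₀ zero_le_two h2 _) h0
  rw [← e₀] at h3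
  exact le_of_mul_le_mul_left (le_of_mul_le_mul_left h3 (by positivity)) hc

theorem Bl.standard (B : Bl g G) :
    ∃ Ψ : ℙ ℂ (E n) → ℙ ℂ (E n), Function.Bijective Ψ ∧ PullsBack g Ψ 1 := by
  obtain ⟨KD⟩ := B.exists_kdata
  have hM : Model G KD := fun x hx τ hτ u hu =>
    B.bk_eq B.exists_isK hx (KD.isK x hx) hτ (B.eq_of_vol_le B.exists_isK B.vol_le hx hτ) hu
  have ho : fixz (0 : E n) ≠ 0 := fixz_ne 0
  obtain ⟨L, hL, hiso⟩ := B.exists_chart hM ho
  exact B.exists_isometry ho hL hiso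

theorem IsMetric.scale (hg : IsMetric g) {a : ℝ} (ha : 0 < a) : IsMetric (a • g) where
  smooth := hg.smooth.const_smul a
  symm z u w hz := by simp [hg.symm z u w hz]
  inv c z u w hc hz := by simp [hg.inv c z u w hc hz]
  vert c z w hz := by simp [hg.vert c z w hz]
  pos z u hz hu := by simpa using mul_pos ha (hg.pos z u hz hu)

theorem IsUnitGeodesic.scale (hg : IsMetric g) {k : ℝ} (hk : 0 < k) {z : ℝ → E n}
    (hz : IsUnitGeodesic (k ^ 2 • g) z) : IsUnitGeodesic g fun t => z (k * t) := by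
  have hd : ∀ t, deriv (fun t => z (k * t)) t = k • deriv z (k * t) := fun t =>
    deriv_comp_mul_left k z t
  refine ⟨hz.smooth.comp (contDiff_const.mul contDiff_id), fun t => hz.ne _, fun t η => ?_,
    fun t => ?_⟩
  · have h1 := ((hz.el (k * t) η).comp t ((hasDerivAt_id t).const_mul k)).const_mul k⁻¹
    have h2 : fderiv ℝ (k ^ 2 • g) (z (k * t)) = k ^ 2 • fderiv ℝ g (z (k * t)) :=
      fderiv_const_smul ((hg.contDiffAt (hz.ne _)).differentiableAt (by simp)) _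
    rw [h2] at h1
    simp only [hd]
    refine (h1.congr_deriv ?_).congr_of_eventuallyEq (Eventually.of_forall fun s => ?_)
    · simp only [map_smul, smul_apply, smul_eq_mul]
      field_simp
    · simp only [Function.comp_def, map_smul, Pi.smul_apply, smul_apply, smul_eq_mul]
      field_simp
  · have h1 := hz.unit (k * t)
    rw [hd]
    simp only [map_smul, Pi.smul_apply, smul_apply, smul_eq_mul] at h1 ⊢
    linarith

theorem len_scale {k : ℝ} (hk : 0 < k) (c : ℝ → E n) : len (k ^ 2 • g) c = k * len g c := by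
  unfold len
  rw [← intervalIntegral.integral_const_mul]
  refine intervalIntegral.integral_congr fun t _ => ?_
  simp only [Pi.smul_apply, smul_apply, smul_eq_mul]
  rw [Real.sqrt_mul (sq_nonneg k), Real.sqrt_sq hk.le]

theorem blaschke (hn : 2 ≤ n) (hg : IsMetric g) {L : ℝ} (hL : 0 < L)
    (hper : ∀ z, IsUnitGeodesic g z → ∀ t, ∃ c : ℂ, z (t + L) = c • z t)
    (hmin : ∀ z, IsUnitGeodesic g z → ∀ t ∈ Icc 0 (L / 2), ∀ c, Joins c (z 0) (z t) → t ≤ len g c) :
    ∃ (Ψ : ℙ ℂ (E n) → ℙ ℂ (E n)) (c : ℝ), Function.Bijective Ψ ∧ 0 < c ∧ PullsBack g Ψ c := by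
  have hk : 0 < π / L := div_pos pi_pos hL
  have hg' : IsMetric ((π / L) ^ 2 • g) := hg.scale (by positivity)
  obtain ⟨G⟩ := hg'.exists_geo
  have B : Bl ((π / L) ^ 2 • g) G := by
    refine ⟨hn, hg', fun x hx t => ?_, fun x hx t ht c hc => ?_⟩
    · obtain ⟨c, hc⟩ := hper _ ((G.isUnitGeodesic_Z hg' hx).scale hg hk) (t / (π / L))
      refine ⟨c, ?_⟩
      rwa [show π / L * (t / (π / L) + L) = t + π by field_simp,
        show π / L * (t / (π / L)) = t by field_simp] at hc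
    · have h1 := hmin _ ((G.isUnitGeodesic_Z hg' hx).scale hg hk) (t / (π / L))
        ⟨div_nonneg ht.1 hk.le, by
          rw [div_le_iff₀ hk, show L / 2 * (π / L) = π / 2 by field_simp]; exact ht.2⟩ c (by
          rw [show π / L * (t / (π / L)) = t by field_simp, mul_zero, Geo.Z, G.psi_zero hg' hx]
          exact hc)
      rw [len_scale hk]
      rwa [div_le_iff₀ hk, mul_comm] at h1
  obtain ⟨Ψ, hΨ, hP⟩ := B.standard
  refine ⟨Ψ, ((π / L) ^ 2)⁻¹, hΨ, by positivity, fun z₀ hz₀ => ?_⟩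
  obtain ⟨U, hU, h0, F, hF, h⟩ := hP z₀ hz₀
  refine ⟨U, hU, h0, F, hF, fun z hz => ?_⟩
  obtain ⟨h1, h2, h3, h4⟩ := h z hz
  refine ⟨h1, h2, h3, fun u w => ?_⟩
  have := h4 u w
  simp only [Pi.smul_apply, smul_apply, smul_eq_mul, one_mul] at this
  rw [← this]
  field_simp

end Pool.Agent.Work.MP_8c604c_gt
end
end

-- merged part: Pool.Agent.Work.MP_8c604c_gt.U.CP
section
/-!
The complex case in the projector model.
-/

noncomputable section
namespace Pool.Agent.Work.MP_8c604c_gt.U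

theorem rigC {n : ℕ} (hn : 2 ≤ n) : DRig (KP 2 n) := by
  refine (embC.brg (n := n)).rig fun g hg L hL hper hmin => ?_
  rw [show fsK (n := n) Complex.reCLM = fs from funext fun z => funext fun u => funext fun w => (fsC z u w).symm]
  exact blaschke (n := n) (g := g) hn ⟨hg.smooth, hg.symm, hg.inv, hg.vert, hg.pos⟩ hL
    (fun z hz => hper z ⟨hz.smooth, hz.ne, hz.el, hz.unit⟩)
    fun z hz t ht c hc => hmin z ⟨hz.smooth, hz.ne, hz.el, hz.unit⟩ t ht c
      ⟨hc.smooth, hc.ne, hc.start, hc.stop⟩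

end Pool.Agent.Work.MP_8c604c_gt.U
end
end
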