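import Pool.Agent.Work.MP_8c604c_gt.H.GeoEx
import Pool.Agent.Work.MP_8c604c_gt.B.G4B
import Pool.Agent.Work.MP_8c604c_gt.B.Out
import Pool.Agent.Work.MP_8c604c_gt.OS.St2
import Pool.Agent.Work.MP_8c604c_gt.OZ.Geo
import Pool.Agent.Work.MP_8c604c_gt.U.CP

-- merged part: Pool.Agent.Work.MP_8c604c_gt.H.Main
section
/-!
Assembly of the Blaschke theorem for quaternionic projective space.
-/

set_option maxSynthPendingDepth 3

open Set Filter Topology MeasureTheory
open scoped ContDiff Quaternion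

noncomputable section
namespace Pool.Agent.Work.MP_8c604c_gt.H

open Real
open scoped LinearAlgebra.Projectivization

variable {n : ℕ} {g : Met n} {G : Geo g}

theorem Bl.kk_three (B : Bl g G) {x : VV n} (hx : x ∈ OO n) : G.kk x = 3 := by
  obtain ⟨k, ⟨D⟩, hk⟩ := B.exists_TD0
  rw [hk x hx, D.k_eq_three B.two]

theorem Bl.vol_le (B : Bl g G) : vol g ≤ vol (fsM n) := by
  obtain ⟨D, F, h1, h2, h3, h4, h5⟩ := B.exists_TD fun _ hx => B.kk_three hx
  rw [vol_fsM]
  exact C.vol_le B.two (fun D _ _ _ h e => D.count_le B.two h e) B.met G D G.lp F h1 h2 h3 h4 (fun x hx => (h5 x hx).1)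
    (fun x hx => (h5 x hx).2.1) fun x hx => (h5 x hx).2.2

theorem Bl.standard (B : Bl g G) :
    ∃ Ψ : ℙ ℍ (E n) → ℙ ℍ (E n), Function.Bijective Ψ ∧ PullsBack g Ψ 1 :=
  B.standard_of_vol_le (fun _ hx => B.kk_three hx) B.vol_le

theorem IsMetric.scale (hg : IsMetric g) {a : ℝ} (ha : 0 < a) : IsMetric (a • g) where
  smooth := hg.smooth.const_smul a
  symm z u w hz := by simp [hg.symm z u w hz]
  inv c z u w hc hz := by simp [hg.inv c z u w hc hz]
  vert c z w hz := by simp [hg.vert c z w hz]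
  pos z u hz hu := by simpa using mul_pos ha (hg.pos z u hz hu)

theorem IsUnitGeodesic.scale (hg : IsMetric g) {k : ℝ} (hk : 0 < k) {z : ℝ → E n}
    (hz : IsUnitGeodesic (k ^ 2 • g) z) : IsUnitGeodesic g fun t => z (k * t) := by
  have hd : ∀ t, deriv (fun t => z (k * t)) t = k • deriv z (k * t) := fun t =>
    deriv_comp_mul_left k z t
  refine ⟨hz.smooth.comp (contDiff_const.mul contDiff_id), fun t => hz.ne _, fun t η => ?_,
    fun t => ?_⟩
  · have h1 := ((hz.el (k * t) η).comp t ((hasDerivAt_id t).const_mul k)).const_mul k⁻¹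
    have h2 : fderiv ℝ (k ^ 2 • g) (z (k * t)) = k ^ 2 • fderiv ℝ g (z (k * t)) :=
      fderiv_const_smul ((hg.contDiffAt (hz.ne _)).differentiableAt (by simp)) _
    rw [h2] at h1
    simp only [hd]
    refine (h1.congr_deriv ?_).congr_of_eventuallyEq (Eventually.of_forall fun s => ?_)
    · simp only [map_smul, smul_apply, smul_eq_mul]
      field_simp
    · simp only [Function.comp_def, map_smul, Pi.smul_apply, smul_apply, smul_eq_mul]
      field_simp
  · have h1 := hz.unit (k * t)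
    rw [hd]
    simp only [map_smul, Pi.smul_apply, smul_apply, smul_eq_mul] at h1 ⊢
    linarith

theorem len_scale {k : ℝ} (hk : 0 < k) (c : ℝ → E n) : len (k ^ 2 • g) c = k * len g c := by
  unfold len
  rw [← intervalIntegral.integral_const_mul]
  refine intervalIntegral.integral_congr fun t _ => ?_
  simp only [Pi.smul_apply, smul_apply, smul_eq_mul]
  rw [Real.sqrt_mul (sq_nonneg k), Real.sqrt_sq hk.le]

theorem blaschke (hn : 2 ≤ n) (hg : IsMetric g) {L : ℝ} (hL : 0 < L)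
    (hper : ∀ z, IsUnitGeodesic g z → ∀ t, ∃ c : ℍ, z (t + L) = c • z t)
    (hmin : ∀ z, IsUnitGeodesic g z → ∀ t ∈ Icc 0 (L / 2), ∀ c, Joins c (z 0) (z t) → t ≤ len g c) :
    ∃ (Ψ : ℙ ℍ (E n) → ℙ ℍ (E n)) (c : ℝ), Function.Bijective Ψ ∧ 0 < c ∧ PullsBack g Ψ c := by
  have hk : 0 < π / L := div_pos pi_pos hL
  have hg' : IsMetric ((π / L) ^ 2 • g) := hg.scale (by positivity)
  obtain ⟨G⟩ := hg'.exists_geo
  have B : Bl ((π / L) ^ 2 • g) G := by
    refine ⟨hn, hg', fun x hx t => ?_, fun x hx t ht c hc => ?_⟩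
    · obtain ⟨c, hc⟩ := hper _ ((G.isUnitGeodesic_Z hg' hx).scale hg hk) (t / (π / L))
      refine ⟨c, ?_⟩
      rwa [show π / L * (t / (π / L) + L) = t + π by field_simp,
        show π / L * (t / (π / L)) = t by field_simp] at hc
    · have h1 := hmin _ ((G.isUnitGeodesic_Z hg' hx).scale hg hk) (t / (π / L))
        ⟨div_nonneg ht.1 hk.le, by
          rw [div_le_iff₀ hk, show L / 2 * (π / L) = π / 2 by field_simp]; exact ht.2⟩ c (by
          rw [show π / L * (t / (π / L)) = t by field_simp, mul_zero, Geo.Z, G.psi_zero hg' hx]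
          exact hc)
      rw [len_scale hk]
      rwa [div_le_iff₀ hk, mul_comm] at h1
  obtain ⟨Ψ, hΨ, hP⟩ := B.standard
  refine ⟨Ψ, ((π / L) ^ 2)⁻¹, hΨ, by positivity, fun z₀ hz₀ => ?_⟩
  obtain ⟨U, hU, h0, F, hF, h⟩ := hP z₀ hz₀
  refine ⟨U, hU, h0, F, hF, fun z hz => ?_⟩
  obtain ⟨h1, h2, h3, h4⟩ := h z hz
  refine ⟨h1, h2, h3, fun u w => ?_⟩
  have := h4 u w
  simp only [Pi.smul_apply, smul_apply, smul_eq_mul, one_mul] at this
  rw [← this]
  field_simp

end Pool.Agent.Work.MP_8c604c_gt.H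
end
end

-- merged part: Pool.Agent.Work.MP_8c604c_gt.U.HP
section
/-!
The quaternionic case in the projector model.
-/

noncomputable section
namespace Pool.Agent.Work.MP_8c604c_gt.U

theorem rigH {n : ℕ} (hn : 2 ≤ n) : DRig (KP 4 n) := by
  refine (embH.brg (n := n)).rig fun g hg L hL hper hmin => ?_
  rw [show fsK (n := n) rH = H.fs from funext fun z => funext fun u => funext fun w => (fsH z u w).symm]
  exact H.blaschke (n := n) (g := g) hn ⟨hg.smooth, hg.symm, hg.inv, hg.vert, hg.pos⟩ hL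
    (fun z hz => hper z ⟨hz.smooth, hz.ne, hz.el, hz.unit⟩)
    fun z hz t ht c hc => hmin z ⟨hz.smooth, hz.ne, hz.el, hz.unit⟩ t ht c
      ⟨hc.smooth, hc.ne, hc.start, hc.stop⟩

end Pool.Agent.Work.MP_8c604c_gt.U
end
end
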