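import Pool.Agent.Work.MP_8c604c_gt.OM.S2

/-!
Statement layer of the uniform hand-in for MP_8c604c_gt: the projective spaces over the complex numbers,
the quaternions and the octonions as sets of Hermitian idempotent matrices of trace one.
-/

noncomputable section
namespace Pool.Agent.Work.MP_8c604c_gt.U

open OM.St

/-- `x` lies in the subalgebra of the octonions spanned by the first `d` coordinates
(`d = 2`: complex numbers, `d = 4`: quaternions, `d = 8`: all octonions). -/
def InK (d : ℕ) (x : O) : Prop :=
  (d < 8 → x.snd = 0) ∧ (d < 4 → x.fst.imJ = 0 ∧ x.fst.imK = 0)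

/-- Square matrices of octonions of size `n + 1`, with their Euclidean structure. -/
abbrev MatN (n : ℕ) : Type := PiLp 2 fun _ : Fin (n + 1) × Fin (n + 1) => O

/-- The projective space `K P^n`, `dim K = d`: entries in `K`, `X` Hermitian, `X X = X` and `tr X = 1`. -/
def KP (d n : ℕ) : Set (MatN n) :=
  {X | (∀ i j, InK d (X (i, j))) ∧ (∀ i j, X (j, i) = ostar (X (i, j))) ∧
    (∀ i j, ∑ k, omul (X (i, k)) (X (k, j)) = X (i, j)) ∧ ∑ i, X (i, i) = oone}

end Pool.Agent.Work.MP_8c604c_gt.U
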